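import Mathlib

open TensorProduct

namespace H33s

theorem add_pow_q {R : Type*} [CommRing R] {p : ℕ} (hp : p.Prime) (h0 : (p : R) = 0) (x y : R)
    (n : ℕ) : (x + y) ^ p ^ n = x ^ p ^ n + y ^ p ^ n := by
  obtain ⟨r, hr⟩ := exists_add_pow_prime_pow_eq hp x y n
  rw [hr, h0]; simp

theorem sub_pow_q {R : Type*} [CommRing R] {p : ℕ} (hp : p.Prime) (h0 : (p : R) = 0) (x y : R)
    (n : ℕ) : (x - y) ^ p ^ n = x ^ p ^ n - y ^ p ^ n := by
  have := add_pow_q hp h0 (x - y) y n
  rw [sub_add_cancel] at this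
  rw [this]; ring

theorem exists_functional {A : Type*} [CommRing A] (P : Ideal A) [P.IsPrime]
    {M : Type*} [AddCommGroup M] [Module A M] (N : Submodule A M)
    (hN : ∀ c ∈ P, ∀ x : M, c • x ∈ N) (m : M) (hm : ∀ c, c ∉ P → c • m ∉ N) :
    ∃ l : M →ₗ[A] FractionRing (A ⧸ P), l m ≠ 0 ∧ ∀ x ∈ N, l x = 0 := by
  have hT : Module.IsTorsionBySet A (M ⧸ N) (P : Set A) := by
    rw [Module.isTorsionBySet_quotient_iff]
    intro x r hr
    exact hN r hr x
  let _ : Module (A ⧸ P) (M ⧸ N) := hT.module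
  have : IsScalarTower A (A ⧸ P) (M ⧸ N) := hT.isScalarTower
  let V := LocalizedModule (nonZeroDivisors (A ⧸ P)) (M ⧸ N)
  let v : V := LocalizedModule.mkLinearMap (nonZeroDivisors (A ⧸ P)) (M ⧸ N) (N.mkQ m)
  have hv : v ≠ 0 := by
    intro h
    obtain ⟨s, hs⟩ := (IsLocalizedModule.eq_zero_iff (nonZeroDivisors (A ⧸ P))
      (LocalizedModule.mkLinearMap (nonZeroDivisors (A ⧸ P)) (M ⧸ N))).1 h
    obtain ⟨s, hs0⟩ := s
    obtain ⟨c, rfl⟩ := Ideal.Quotient.mk_surjective s
    have hc : c ∉ P := by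
      intro hc
      exact nonZeroDivisors.ne_zero hs0 (Ideal.Quotient.eq_zero_iff_mem.2 hc)
    apply hm c hc
    have : c • N.mkQ m = 0 := hs
    rw [← map_smul] at this
    exact (Submodule.Quotient.mk_eq_zero N).1 this
  obtain ⟨g, hg⟩ : ∃ g : Module.Dual (FractionRing (A ⧸ P)) V, g v ≠ 0 := by
    by_contra hcon
    push Not at hcon
    exact hv ((Module.forall_dual_apply_eq_zero_iff (FractionRing (A ⧸ P)) v).1 hcon)
  let g1 : (M ⧸ N) →ₗ[A ⧸ P] FractionRing (A ⧸ P) :=
    (g.restrictScalars (A ⧸ P)).comp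
      (LocalizedModule.mkLinearMap (nonZeroDivisors (A ⧸ P)) (M ⧸ N))
  refine ⟨(g1.restrictScalars A).comp N.mkQ, hg, fun x hx => ?_⟩
  have : N.mkQ x = 0 := (Submodule.Quotient.mk_eq_zero N).2 hx
  simp only [LinearMap.comp_apply, this, map_zero]

theorem prime_step {A B : Type*} [CommRing A] [CommRing B] [Algebra A B] (P : Ideal A)
    [P.IsPrime] (y : B) (hy : y ⊗ₜ[A] (1 : B) = (1 : B) ⊗ₜ[A] y) :
    ∃ c, c ∉ P ∧ ∃ a : A, c • y - algebraMap A B a ∈ P.map (algebraMap A B) := by
  by_contra hcon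
  push Not at hcon
  let N : Submodule A B :=
    (Submodule.span A {(1 : B)}) ⊔ (P.map (algebraMap A B)).restrictScalars A
  obtain ⟨l, hl, hlN⟩ := exists_functional P N (fun c hc x => by
      apply Submodule.mem_sup_right
      rw [Submodule.restrictScalars_mem, Algebra.smul_def]
      exact Ideal.mul_mem_right _ _ (Ideal.mem_map_of_mem _ hc)) y (fun c hc hmem => by
      obtain ⟨u, hu, w, hw, huw⟩ := Submodule.mem_sup.1 hmem
      obtain ⟨a, rfl⟩ := Submodule.mem_span_singleton.1 hu
      apply hcon c hc a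
      rw [← huw, Algebra.algebraMap_eq_smul_one, add_sub_cancel_left]
      exact hw)
  have h1 : l 1 = 0 := hlN 1 (Submodule.mem_sup_left (Submodule.mem_span_singleton_self _))
  let L : B ⊗[A] B →ₗ[A] FractionRing (A ⧸ P) :=
    (LinearMap.mul' A (FractionRing (A ⧸ P))).comp (TensorProduct.map l l)
  have h2 : y ⊗ₜ[A] y = (1 : B) ⊗ₜ[A] (y * y) := by
    have : (y ⊗ₜ[A] (1 : B)) * ((1 : B) ⊗ₜ[A] y) = ((1 : B) ⊗ₜ[A] y) * ((1 : B) ⊗ₜ[A] y) := by
      rw [hy]
    simpa [Algebra.TensorProduct.tmul_mul_tmul] using this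
  have h3 := congrArg L h2
  simp only [L, LinearMap.comp_apply, TensorProduct.map_tmul, LinearMap.mul'_apply, h1,
    zero_mul] at h3
  exact hl (mul_self_eq_zero.1 h3)

/-- Gluing step: the property for `I ⊔ (c)` and a bound for the multiples of `c`. -/
theorem glue_step {A B : Type*} [CommRing A] [CommRing B] [Algebra A B] {p : ℕ} (hp : p.Prime)
    (h0 : (p : B) = 0) (I : Ideal A) (c : A) (n m : ℕ)
    (h1 : ∀ y : B, ∃ a : A, y ^ p ^ n - algebraMap A B a ∈
      (I ⊔ Ideal.span {c}).map (algebraMap A B))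
    (h2 : ∀ z : B, ∃ a : A, c • z ^ p ^ m - algebraMap A B a ∈ I.map (algebraMap A B)) (y : B) :
    ∃ a : A, y ^ p ^ (n + m) - algebraMap A B a ∈ I.map (algebraMap A B) := by
  obtain ⟨a, ha⟩ := h1 y
  rw [Ideal.map_sup, Ideal.map_span, Set.image_singleton] at ha
  obtain ⟨u, hu, w, hw, huw⟩ := Submodule.mem_sup.1 ha
  obtain ⟨z, rfl⟩ := Ideal.mem_span_singleton'.1 hw
  obtain ⟨a', ha'⟩ := h2 z
  obtain ⟨e, he⟩ : ∃ e, p ^ m = e + 1 := ⟨p ^ m - 1, by
    have := Nat.pos_of_ne_zero (pow_ne_zero m hp.ne_zero); omega⟩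
  refine ⟨a ^ p ^ m + c ^ e * a', ?_⟩
  have hy : y ^ p ^ n = algebraMap A B a + (u + z * algebraMap A B c) := by
    rw [huw]; ring
  have : y ^ p ^ (n + m) - algebraMap A B (a ^ p ^ m + c ^ e * a') =
      u ^ e * u + algebraMap A B c ^ e * (c • z ^ p ^ m - algebraMap A B a') := by
    rw [pow_add, pow_mul, hy, add_pow_q hp h0, add_pow_q hp h0, mul_pow, Algebra.smul_def]
    simp only [map_add, map_mul, map_pow]
    rw [show u ^ p ^ m = u ^ e * u by rw [he, pow_succ],
      show algebraMap A B c ^ p ^ m = algebraMap A B c ^ e * algebraMap A B c by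
        rw [he, pow_succ]]
    ring
  rw [this]
  exact Ideal.add_mem _ (Ideal.mul_mem_left _ _ hu) (Ideal.mul_mem_left _ _ ha')

theorem move_tensor {A B : Type*} [CommRing A] [CommRing B] [Algebra A B] [IsNoetherianRing A]
    [Module.Finite A B] {p : ℕ} (hp : p.Prime) (h0 : (p : B) = 0) (m : ℕ)
    (H : ∀ y : B, (y ^ p ^ m) ⊗ₜ[A] (1 : B) = (1 : B) ⊗ₜ[A] (y ^ p ^ m)) :
    ∃ n, ∀ y : B, ∃ a : A, y ^ p ^ n = algebraMap A B a := by
  classical
  have key : ∀ I : Ideal A, ∃ n, ∀ y : B, ∃ a : A,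
      y ^ p ^ n - algebraMap A B a ∈ I.map (algebraMap A B) := by
    intro I
    induction I using IsNoetherian.induction with
    | hgt I ih =>
    by_cases htop : I = ⊤
    · exact ⟨0, fun y => ⟨0, by rw [htop, Ideal.map_top]; trivial⟩⟩
    have hlt : ∀ c, c ∉ I → I < I ⊔ Ideal.span {c} := fun c hc =>
      lt_of_le_of_ne le_sup_left fun h => hc (by
        rw [h]; exact Ideal.mem_sup_right (Ideal.mem_span_singleton_self c))
    by_cases hP : Ideal.IsPrime I
    · obtain ⟨S, hS⟩ := Module.Finite.fg_top (R := A) (M := B)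
      choose c hc a ha using fun y : B => prime_step I (y ^ p ^ m) (H y)
      have hC : (∏ y ∈ S, c y) ∉ I := by
        intro h
        obtain ⟨y, -, hy⟩ := (Ideal.IsPrime.prod_mem_iff (p := I)).1 h
        exact hc y hy
      obtain ⟨n, hn⟩ := ih _ (hlt _ hC)
      refine ⟨n + m, glue_step hp h0 I _ n m hn fun z => ?_⟩
      have hz : z ∈ Submodule.span A (S : Set B) := by rw [hS]; trivial
      induction hz using Submodule.span_induction with
      | mem x hx =>
        refine ⟨(∏ y ∈ S.erase x, c y) * a x, ?_⟩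
        rw [← Finset.prod_erase_mul S c hx, mul_smul, map_mul, Algebra.smul_def, ← mul_sub]
        exact Ideal.mul_mem_left _ _ (ha x)
      | zero =>
        refine ⟨0, ?_⟩
        rw [zero_pow (pow_ne_zero _ hp.ne_zero)]; simp
      | add x y _ _ hx hy =>
        obtain ⟨a1, h1⟩ := hx
        obtain ⟨a2, h2⟩ := hy
        refine ⟨a1 + a2, ?_⟩
        rw [add_pow_q hp h0, smul_add, map_add, add_sub_add_comm]
        exact Ideal.add_mem _ h1 h2
      | smul r x _ hx =>
        obtain ⟨a1, h1⟩ := hx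
        refine ⟨r ^ p ^ m * a1, ?_⟩
        rw [smul_pow, smul_comm, map_mul, Algebra.smul_def, ← mul_sub]
        exact Ideal.mul_mem_left _ _ h1
    · obtain ⟨u, hu, v, hv, huv⟩ := (Ideal.not_isPrime_iff.1 hP).resolve_left htop
      obtain ⟨n, hn⟩ := ih _ (hlt _ hu)
      obtain ⟨n', hn'⟩ := ih _ (hlt _ hv)
      refine ⟨n + n', glue_step hp h0 I u n n' hn fun z => ?_⟩
      obtain ⟨a, ha⟩ := hn' z
      rw [Ideal.map_sup, Ideal.map_span, Set.image_singleton] at ha
      obtain ⟨w, hw, w', hw', hww⟩ := Submodule.mem_sup.1 ha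
      obtain ⟨t, rfl⟩ := Ideal.mem_span_singleton'.1 hw'
      refine ⟨u * a, ?_⟩
      rw [Algebra.smul_def, map_mul, ← mul_sub, ← hww, mul_add]
      refine Ideal.add_mem _ (Ideal.mul_mem_left _ _ hw) ?_
      rw [show algebraMap A B u * (t * algebraMap A B v) = t * algebraMap A B (u * v) by
        rw [map_mul]; ring]
      exact Ideal.mul_mem_left _ _ (Ideal.mem_map_of_mem _ huv)
  obtain ⟨n, hn⟩ := key ⊥
  refine ⟨n, fun y => ?_⟩
  obtain ⟨a, ha⟩ := hn y
  rw [Ideal.map_bot, Ideal.mem_bot, sub_eq_zero] at ha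
  exact ⟨a, ha⟩

theorem point_of_maximal {k T : Type*} [Field k] [IsAlgClosed k] [CommRing T] [Algebra k T]
    [Algebra.FiniteType k T] (𝔫 : Ideal T) [h : 𝔫.IsMaximal] :
    ∃ χ : T →ₐ[k] k, ∀ x, χ x = 0 ↔ x ∈ 𝔫 := by
  let _ : Field (T ⧸ 𝔫) := Ideal.Quotient.field 𝔫
  have : Module.Finite k (T ⧸ 𝔫) := finite_of_finite_type_of_isJacobsonRing k (T ⧸ 𝔫)
  let e : k ≃ₐ[k] (T ⧸ 𝔫) :=
    AlgEquiv.ofBijective (Algebra.ofId k (T ⧸ 𝔫)) IsAlgClosed.algebraMap_bijective_of_isIntegral
  refine ⟨(e.symm : (T ⧸ 𝔫) →ₐ[k] k).comp (Ideal.Quotient.mkₐ k 𝔫), fun x => ?_⟩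
  simp [Ideal.Quotient.eq_zero_iff_mem]

theorem nilpotent_of_points {k T : Type*} [Field k] [IsAlgClosed k] [CommRing T] [Algebra k T]
    [Algebra.FiniteType k T] (x : T) (hx : ∀ χ : T →ₐ[k] k, χ x = 0) : IsNilpotent x := by
  have : IsJacobsonRing T := isJacobsonRing_of_finiteType (A := k)
  rw [← mem_nilradical, nilradical, Ideal.radical_eq_jacobson, Ideal.jacobson,
    Submodule.mem_sInf]
  rintro J ⟨-, hJ⟩
  obtain ⟨χ, hχ⟩ := point_of_maximal (k := k) J (h := hJ)
  exact (hχ x).1 (hx χ)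

theorem extend_point {k C B : Type*} [Field k] [IsAlgClosed k] [CommRing C] [CommRing B]
    [Algebra k C] [Algebra k B] [Algebra C B] [IsScalarTower k C B] [Algebra.FiniteType k B]
    [Algebra.IsIntegral C B] (hinj : Function.Injective (algebraMap C B)) (φ : C →ₐ[k] k) :
    ∃ Φ : B →ₐ[k] k, ∀ c, Φ (algebraMap C B c) = φ c := by
  have hsurj : Function.Surjective φ := fun t => ⟨algebraMap k C t, by simp⟩
  have hmax : (RingHom.ker φ).IsMaximal := RingHom.ker_isMaximal_of_surjective φ hsurj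
  obtain ⟨Q, hQ, hQc⟩ := Ideal.exists_ideal_over_maximal_of_isIntegral (S := B) (RingHom.ker φ)
    (by rw [(RingHom.injective_iff_ker_eq_bot _).1 hinj]; exact bot_le)
  obtain ⟨χ, hχ⟩ := point_of_maximal (k := k) Q (h := hQ)
  refine ⟨χ, fun c => ?_⟩
  have h1 : c - algebraMap k C (φ c) ∈ RingHom.ker φ := by
    rw [RingHom.mem_ker]; simp
  rw [← hQc, Ideal.mem_comap, ← hχ, map_sub, map_sub, ← IsScalarTower.algebraMap_apply,
    AlgHom.commutes, sub_eq_zero] at h1
  exact h1

/-- Affine move lemma: `B` finite over `A`, both of finite type over an algebraically closed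
field of characteristic `p`; an element of `B` that takes the same value at any two points over
the same point of `A` has a `p^n`-th power in the image of `A`. -/
theorem move_affine {k A B : Type*} [Field k] [IsAlgClosed k] (p : ℕ) [hp : Fact p.Prime]
    [CharP k p] [CommRing A] [CommRing B] [Algebra k A] [Algebra k B] [Algebra A B]
    [IsScalarTower k A B] [Algebra.FiniteType k A] [Module.Finite A B] (b : B)
    (H : ∀ φ ψ : B →ₐ[k] k, (∀ a, φ (algebraMap A B a) = ψ (algebraMap A B a)) → φ b = ψ b) :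
    ∃ n, ∃ a : A, b ^ p ^ n = algebraMap A B a := by
  classical
  have hN : IsNoetherianRing A := Algebra.FiniteType.isNoetherianRing k A
  have hB : Algebra.FiniteType k B := Algebra.FiniteType.trans (S := A) inferInstance inferInstance
  let C : Subalgebra A B := Algebra.adjoin A {b}
  have hCf : Module.Finite A C :=
    Algebra.finite_adjoin_simple_of_isIntegral (Algebra.IsIntegral.isIntegral b)
  have hint : Algebra.IsIntegral C B := Algebra.IsIntegral.tower_top A
  have hT : Algebra.FiniteType k (C ⊗[A] C) :=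
    Algebra.FiniteType.trans (S := A) inferInstance inferInstance
  have hk0 : (p : k) = 0 := CharP.cast_eq_zero k p
  have hC0 : (p : C) = 0 := by
    rw [← map_natCast (algebraMap k C), hk0, map_zero]
  have hT0 : (p : C ⊗[A] C) = 0 := by
    rw [← map_natCast (algebraMap k (C ⊗[A] C)), hk0, map_zero]
  have hnil : ∀ y : C, IsNilpotent (y ⊗ₜ[A] (1 : C) - (1 : C) ⊗ₜ[A] y) := by
    intro y
    refine nilpotent_of_points (k := k) _ fun χ => ?_
    let φ0 : C →ₐ[k] k := χ.comp
      ((Algebra.TensorProduct.includeLeft : C →ₐ[A] C ⊗[A] C).restrictScalars k)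
    let ψ0 : C →ₐ[k] k := χ.comp
      ((Algebra.TensorProduct.includeRight : C →ₐ[A] C ⊗[A] C).restrictScalars k)
    have hA : ∀ a : A, φ0 (algebraMap A C a) = ψ0 (algebraMap A C a) := by
      intro a
      simp only [φ0, ψ0, AlgHom.comp_apply, AlgHom.restrictScalars_apply, AlgHom.commutes]
    obtain ⟨Φ, hΦ⟩ := extend_point (B := B) Subtype.val_injective φ0
    obtain ⟨Ψ, hΨ⟩ := extend_point (B := B) Subtype.val_injective ψ0
    have hA' : ∀ a : A, Φ (algebraMap A B a) = Ψ (algebraMap A B a) := by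
      intro a
      rw [IsScalarTower.algebraMap_apply A C B, hΦ, hΨ, hA]
    have hb := H Φ Ψ hA'
    have hall : ∀ z ∈ Algebra.adjoin A {b}, Φ z = Ψ z := by
      intro z hz
      induction hz using Algebra.adjoin_induction with
      | mem x hx => rw [Set.mem_singleton_iff.1 hx]; exact hb
      | algebraMap a => exact hA' a
      | add x y _ _ hx hy => rw [map_add, map_add, hx, hy]
      | mul x y _ _ hx hy => rw [map_mul, map_mul, hx, hy]
    have hy : φ0 y = ψ0 y := by
      rw [← hΦ, ← hΨ]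
      exact hall y y.2
    rw [map_sub, sub_eq_zero]
    exact hy
  have hpow : ∀ y : C, ∃ m, ∀ m', m ≤ m' →
      (y ^ p ^ m') ⊗ₜ[A] (1 : C) = (1 : C) ⊗ₜ[A] (y ^ p ^ m') := by
    intro y
    obtain ⟨m, hm⟩ := hnil y
    refine ⟨m, fun m' hm' => ?_⟩
    have h1 : (y ⊗ₜ[A] (1 : C) - (1 : C) ⊗ₜ[A] y) ^ p ^ m' = 0 :=
      pow_eq_zero_of_le (hm'.trans (Nat.lt_pow_self hp.out.one_lt).le) hm
    rw [sub_pow_q hp.out hT0, sub_eq_zero, Algebra.TensorProduct.tmul_pow,
      Algebra.TensorProduct.tmul_pow, one_pow] at h1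
    exact h1
  choose m hm using hpow
  obtain ⟨S, hS⟩ := Module.Finite.fg_top (R := A) (M := C)
  have hall : ∀ y : C, (y ^ p ^ (S.sup m)) ⊗ₜ[A] (1 : C) = (1 : C) ⊗ₜ[A] (y ^ p ^ (S.sup m)) := by
    intro z
    have hz : z ∈ Submodule.span A (S : Set C) := by rw [hS]; trivial
    induction hz using Submodule.span_induction with
    | mem x hx => exact hm x _ (Finset.le_sup hx)
    | zero => rw [zero_pow (pow_ne_zero _ hp.out.ne_zero), zero_tmul, tmul_zero]
    | add x y _ _ hx hy => rw [add_pow_q hp.out hC0, add_tmul, tmul_add, hx, hy]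
    | smul r x _ hx => rw [smul_pow, tmul_smul, ← hx, smul_tmul']
  obtain ⟨n, hn⟩ := move_tensor hp.out hC0 _ hall
  obtain ⟨a, ha⟩ := hn ⟨b, Algebra.self_mem_adjoin_singleton A b⟩
  exact ⟨n, a, congrArg Subtype.val ha⟩

open MvPolynomial

theorem comp_mul_homog {k σ : Type*} [CommRing k] (g a : MvPolynomial σ k) {D : ℕ}
    (ha : a.IsHomogeneous D) (n : ℕ) :
    homogeneousComponent (n + D) (g * a) = homogeneousComponent n g * a := by
  classical
  conv_lhs => rw [← sum_homogeneousComponent g, Finset.sum_mul, map_sum]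
  have : ∀ i, homogeneousComponent (n + D) (homogeneousComponent i g * a) =
      if i = n then homogeneousComponent i g * a else 0 := by
    intro i
    rw [homogeneousComponent_of_mem ((homogeneousComponent_isHomogeneous i g).mul ha)]
    by_cases h : i = n
    · rw [if_pos h, if_pos (by rw [h])]
    · rw [if_neg h, if_neg (by omega)]
  simp only [this]
  rw [Finset.sum_ite_eq']
  split_ifs with h
  · rfl
  · rw [homogeneousComponent_eq_zero, zero_mul]
    simpa using h

theorem finite_of_no_common_zero {k σ ι : Type*} [Field k] [IsAlgClosed k] [Fintype σ]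
    [Fintype ι] (a : ι → MvPolynomial σ k) {D : ℕ} (hD : 0 < D)
    (ha : ∀ i, (a i).IsHomogeneous D)
    (hz : ∀ x : σ → k, (∀ i, eval x (a i) = 0) → x = 0) :
    (aeval a : MvPolynomial ι k →ₐ[k] MvPolynomial σ k).toRingHom.Finite := by
  classical
  let _ : Algebra (MvPolynomial ι k) (MvPolynomial σ k) :=
    (aeval a : MvPolynomial ι k →ₐ[k] MvPolynomial σ k).toRingHom.toAlgebra
  have hmap : ∀ f : MvPolynomial ι k,
      algebraMap (MvPolynomial ι k) (MvPolynomial σ k) f = aeval a f := fun _ => rfl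
  have : IsScalarTower k (MvPolynomial ι k) (MvPolynomial σ k) :=
    IsScalarTower.of_algebraMap_eq fun r => by rw [hmap, AlgHom.commutes]
  have hX : ∀ j : σ, ∃ N, (X j : MvPolynomial σ k) ^ N ∈ Ideal.span (Set.range a) := by
    intro j
    have : (X j : MvPolynomial σ k) ∈ (Ideal.span (Set.range a)).radical := by
      rw [← vanishingIdeal_zeroLocus_eq_radical (K := k), mem_vanishingIdeal_iff]
      intro x hx
      have : x = 0 := hz x fun i => hx (a i) (Ideal.subset_span ⟨i, rfl⟩)
      simp [this]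
    exact this
  choose N hN using hX
  let bd : ℕ := (∑ j, N j) + D
  let W := restrictTotalDegree σ k bd
  let M : Submodule (MvPolynomial ι k) (MvPolynomial σ k) := Submodule.span _ (W : Set _)
  have hM : M.FG := by
    obtain ⟨S, hS⟩ : W.FG := Module.Finite.iff_fg.1 inferInstance
    refine ⟨S, ?_⟩
    rw [← Submodule.span_span_of_tower k, hS]
  have hhom : ∀ d, ∀ w : MvPolynomial σ k, w.IsHomogeneous d → w ∈ M := by
    intro d
    induction d using Nat.strong_induction_on with
    | _ d ih =>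
    intro w hw
    by_cases hd : d ≤ bd
    · exact Submodule.subset_span ((mem_restrictTotalDegree _ _ _).2 (hw.totalDegree_le.trans hd))
    · have hI : w ∈ Ideal.span (Set.range a) := by
        rw [w.as_sum]
        refine Ideal.sum_mem _ fun s hs => ?_
        have hdeg : ∑ j, s j = d := by
          rw [hw.degree_eq_sum_deg_support hs]
          exact (Finset.sum_subset (Finset.subset_univ _) fun j _ hj => by simpa using hj).symm
        obtain ⟨j, hj⟩ : ∃ j, N j ≤ s j := by
          by_contra hcon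
          push Not at hcon
          have : ∑ j, s j ≤ ∑ j, N j := Finset.sum_le_sum fun j _ => (hcon j).le
          omega
        have : monomial s (coeff s w) =
            monomial (s - Finsupp.single j (N j)) (coeff s w) * X j ^ N j := by
          rw [X_pow_eq_monomial, monomial_mul, mul_one, tsub_add_cancel_of_le]
          exact Finsupp.single_le_iff.2 hj
        rw [this]
        exact Ideal.mul_mem_left _ _ (hN j)
      obtain ⟨g, hg⟩ := Ideal.mem_span_range_iff_exists_fun.1 hI
      obtain ⟨e, rfl⟩ : ∃ e, d = e + D := ⟨d - D, by omega⟩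
      have : w = ∑ i, homogeneousComponent e (g i) * a i := by
        rw [← homogeneousComponent_eq_self hw, ← hg, map_sum]
        exact Finset.sum_congr rfl fun i _ => comp_mul_homog _ _ (ha i) e
      rw [this]
      refine Submodule.sum_mem _ fun i _ => ?_
      have h1 := M.smul_mem (X i) (ih e (by omega) _ (homogeneousComponent_isHomogeneous e (g i)))
      rw [Algebra.smul_def, hmap, aeval_X, mul_comm] at h1
      exact h1
  have htop : M = ⊤ := by
    rw [eq_top_iff]
    intro w _
    rw [← sum_homogeneousComponent w]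
    exact Submodule.sum_mem _ fun i _ => hhom i _ (homogeneousComponent_isHomogeneous i w)
  exact ⟨htop ▸ hM⟩

theorem aeval_component {k σ ι : Type*} [CommRing k] (a : ι → MvPolynomial σ k) {D : ℕ}
    (hD : 0 < D) (ha : ∀ i, (a i).IsHomogeneous D) (f : MvPolynomial ι k) (n : ℕ) :
    homogeneousComponent (D * n) (aeval a f) = aeval a (homogeneousComponent n f) := by
  classical
  conv_lhs => rw [← sum_homogeneousComponent f, map_sum, map_sum]
  have : ∀ i, homogeneousComponent (D * n) (aeval a (homogeneousComponent i f)) =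
      if i = n then aeval a (homogeneousComponent i f) else 0 := by
    intro i
    rw [homogeneousComponent_of_mem ((homogeneousComponent_isHomogeneous i f).aeval a ha)]
    by_cases h : i = n
    · rw [if_pos h, if_pos (by rw [h])]
    · rw [if_neg h, if_neg fun h' => h (Nat.eq_of_mul_eq_mul_left hD h').symm]
  simp only [this]
  rw [Finset.sum_ite_eq']
  split_ifs with h
  · rfl
  · rw [homogeneousComponent_eq_zero, map_zero]
    simpa using h

/-- MOVE LEMMA. Forms `a i` of the same positive degree `D` without a common zero other than `0`,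
and a form `h` of degree `D` that does not separate points with the same image under `a`:
a `p^n`-th power of `h` is a form of degree `p^n` in the `a i`. -/
theorem move_lemma {k σ ι : Type*} [Field k] [IsAlgClosed k] (p : ℕ) [Fact p.Prime] [CharP k p]
    [Fintype σ] [Fintype ι] (a : ι → MvPolynomial σ k) (h : MvPolynomial σ k) {D : ℕ}
    (hD : 0 < D) (ha : ∀ i, (a i).IsHomogeneous D) (hh : h.IsHomogeneous D)
    (hz : ∀ x : σ → k, (∀ i, eval x (a i) = 0) → x = 0)
    (hsep : ∀ x y : σ → k, (∀ i, eval x (a i) = eval y (a i)) → eval x h = eval y h) :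
    ∃ n, ∃ f : MvPolynomial ι k, f.IsHomogeneous (p ^ n) ∧ h ^ p ^ n = aeval a f := by
  classical
  let _ : Algebra (MvPolynomial ι k) (MvPolynomial σ k) :=
    (aeval a : MvPolynomial ι k →ₐ[k] MvPolynomial σ k).toRingHom.toAlgebra
  have hmap : ∀ f : MvPolynomial ι k,
      algebraMap (MvPolynomial ι k) (MvPolynomial σ k) f = aeval a f := fun _ => rfl
  have : IsScalarTower k (MvPolynomial ι k) (MvPolynomial σ k) :=
    IsScalarTower.of_algebraMap_eq fun r => by rw [hmap, AlgHom.commutes]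
  have : Module.Finite (MvPolynomial ι k) (MvPolynomial σ k) :=
    finite_of_no_common_zero a hD ha hz
  obtain ⟨n, f, hf⟩ := move_affine (k := k) (A := MvPolynomial ι k) p h fun φ ψ hφ => by
    have e : ∀ (χ : MvPolynomial σ k →ₐ[k] k) (w : MvPolynomial σ k),
        χ w = eval (fun j => χ (X j)) w := fun χ w => by
      conv_lhs => rw [aeval_unique χ]
      rfl
    rw [e φ, e ψ]
    refine hsep _ _ fun i => ?_
    have := hφ (X i)
    rw [hmap, aeval_X] at this
    rw [← e φ, ← e ψ, this]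
  refine ⟨n, homogeneousComponent (p ^ n) f, homogeneousComponent_isHomogeneous _ _, ?_⟩
  rw [← aeval_component a hD ha, ← hmap, ← hf, homogeneousComponent_eq_self (hh.pow _)]

/-- The cone `Z` is cut out by two nonzero forms of positive degree. -/
def CutByTwo {k : Type*} [Field k] (Z : Set (Fin 4 → k)) : Prop :=
  ∃ (F G : MvPolynomial (Fin 4) k) (d e : ℕ), 0 < d ∧ 0 < e ∧ F ≠ 0 ∧ G ≠ 0 ∧
    F.IsHomogeneous d ∧ G.IsHomogeneous e ∧ Z = {x | eval x F = 0 ∧ eval x G = 0}

/-- The set of values of four polynomials. -/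
def cone {k σ : Type*} [Field k] (a : Fin 4 → MvPolynomial σ k) : Set (Fin 4 → k) :=
  Set.range fun (P : σ → k) (i : Fin 4) => eval P (a i)

theorem eval_aeval' {k σ ι : Type*} [CommRing k] (a : ι → MvPolynomial σ k) (x : σ → k)
    (f : MvPolynomial ι k) : eval x (aeval a f) = eval (fun i => eval x (a i)) f := by
  induction f using MvPolynomial.induction_on with
  | C r => simp
  | add f g hf hg => simp only [map_add, hf, hg]
  | mul_X f i hf => simp only [map_mul, hf, aeval_X, eval_X]

/-- Pull back along a surjective self-map of `k^4` given by forms of one positive degree. -/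
theorem CutByTwo.preimage {k : Type*} [Field k] [Infinite k] {T : Set (Fin 4 → k)}
    (hT : CutByTwo T) (Φ : Fin 4 → MvPolynomial (Fin 4) k) {q : ℕ} (hq : 0 < q)
    (hΦ : ∀ i, (Φ i).IsHomogeneous q)
    (hs : Function.Surjective fun (x : Fin 4 → k) (i : Fin 4) => eval x (Φ i)) :
    CutByTwo ((fun (x : Fin 4 → k) (i : Fin 4) => eval x (Φ i)) ⁻¹' T) := by
  obtain ⟨F, G, d, e, hd, he, hF, hG, hFd, hGe, rfl⟩ := hT
  have hne : ∀ H : MvPolynomial (Fin 4) k, H ≠ 0 → aeval Φ H ≠ 0 := by
    intro H hH h0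
    apply hH
    refine MvPolynomial.funext fun y => ?_
    obtain ⟨x, rfl⟩ := hs y
    rw [← eval_aeval', h0, map_zero, map_zero]
  refine ⟨aeval Φ F, aeval Φ G, q * d, q * e, Nat.mul_pos hq hd, Nat.mul_pos hq he, hne F hF,
    hne G hG, hFd.aeval Φ hΦ, hGe.aeval Φ hΦ, ?_⟩
  ext x
  simp only [Set.mem_preimage, Set.mem_ofPred_eq, eval_aeval']

/-- Frobenius twist: the image of a cone cut by two forms under `x ↦ x^(p^n)`. -/
theorem CutByTwo.frob_image {k : Type*} [Field k] [IsAlgClosed k] (p : ℕ) [Fact p.Prime]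
    [CharP k p] {S : Set (Fin 4 → k)} (hS : CutByTwo S) (n : ℕ) :
    CutByTwo ((fun (x : Fin 4 → k) (i : Fin 4) => x i ^ p ^ n) '' S) := by
  obtain ⟨F, G, d, e, hd, he, hF, hG, hFd, hGe, rfl⟩ := hS
  have hinj : Function.Injective (iterateFrobenius k p n) := (iterateFrobenius k p n).injective
  have hev : ∀ (x : Fin 4 → k) (H : MvPolynomial (Fin 4) k),
      eval (fun i => x i ^ p ^ n) (map (iterateFrobenius k p n) H) = eval x H ^ p ^ n := by
    intro x H
    induction H using MvPolynomial.induction_on with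
    | C r => simp [iterateFrobenius_def]
    | add f g hf hg => simp only [map_add, hf, hg, add_pow_char_pow]
    | mul_X f i hf => simp only [map_mul, hf, map_X, eval_X, mul_pow]
  have hq : p ^ n ≠ 0 := pow_ne_zero _ (Fact.out : p.Prime).ne_zero
  refine ⟨map (iterateFrobenius k p n) F, map (iterateFrobenius k p n) G, d, e, hd, he,
    fun h => hF (map_injective _ hinj (by rw [h, map_zero])),
    fun h => hG (map_injective _ hinj (by rw [h, map_zero])), hFd.map _, hGe.map _, ?_⟩
  ext y
  constructor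
  · rintro ⟨x, ⟨h1, h2⟩, rfl⟩
    exact ⟨by rw [hev, h1, zero_pow hq], by rw [hev, h2, zero_pow hq]⟩
  · rintro ⟨h1, h2⟩
    choose x hx using fun i => IsAlgClosed.exists_pow_nat_eq (y i) (Nat.pos_of_ne_zero hq)
    have hy : y = fun i => x i ^ p ^ n := funext fun i => (hx i).symm
    rw [hy, hev] at h1 h2
    exact ⟨x, ⟨pow_eq_zero_iff hq |>.1 h1, pow_eq_zero_iff hq |>.1 h2⟩, hy.symm⟩

theorem pow_q_inj {k : Type*} [Field k] (p : ℕ) [Fact p.Prime] [CharP k p] (n : ℕ) {x y : k}
    (h : x ^ p ^ n = y ^ p ^ n) : x = y :=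
  (iterateFrobenius k p n).injective h

/-- Lifting: raising all four coordinates to the power `p^n` does not change the property. -/
theorem cutByTwo_cone_pow_iff {k σ : Type*} [Field k] [IsAlgClosed k] (p : ℕ) [Fact p.Prime]
    [CharP k p] (a : Fin 4 → MvPolynomial σ k) (n : ℕ) :
    CutByTwo (cone fun i => a i ^ p ^ n) ↔ CutByTwo (cone a) := by
  have hq : 0 < p ^ n := pow_pos (Fact.out : p.Prime).pos _
  have himg : (cone fun i => a i ^ p ^ n) =
      (fun (x : Fin 4 → k) (i : Fin 4) => x i ^ p ^ n) '' cone a := by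
    rw [cone, cone, ← Set.range_comp]
    congr 1
    ext P i
    simp
  rw [himg]
  refine ⟨fun h => ?_, fun h => h.frob_image p n⟩
  have := h.preimage (fun i => X i ^ p ^ n) hq (fun i => isHomogeneous_X_pow i _) (fun y => by
    choose x hx using fun i => IsAlgClosed.exists_pow_nat_eq (y i) hq
    exact ⟨x, funext fun i => by simp [hx]⟩)
  simp only [map_pow, eval_X] at this
  rwa [Set.preimage_image_eq] at this
  intro x y hxy
  exact funext fun i => pow_q_inj p n (congrFun hxy i)

/-- A permutation of the coordinates does not change the property. -/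
theorem cutByTwo_cone_perm {k σ : Type*} [Field k] [Infinite k] (a : Fin 4 → MvPolynomial σ k)
    (e : Equiv.Perm (Fin 4)) (h : CutByTwo (cone a)) : CutByTwo (cone fun i => a (e i)) := by
  have := h.preimage (fun i => X (e.symm i)) one_pos (fun i => isHomogeneous_X _ _) (fun y =>
    ⟨fun i => y (e i), funext fun i => by simp⟩)
  convert this using 1
  ext x
  simp only [cone, Set.mem_range, Set.mem_preimage, eval_X]
  constructor
  · rintro ⟨P, rfl⟩
    exact ⟨P, funext fun i => by simp⟩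
  · rintro ⟨P, hP⟩
    exact ⟨P, funext fun i => by simpa using congrFun hP (e i)⟩

/-- Overshear: if `h1^q = h2^q + f(a0,a1,a2)` with `f` a form of degree `q = p^n`, the property
passes from `(a0,a1,a2,h2)` to `(a0,a1,a2,h1)`. -/
theorem cutByTwo_shear {k σ : Type*} [Field k] [IsAlgClosed k] (p : ℕ) [Fact p.Prime]
    [CharP k p] (a0 a1 a2 h1 h2 : MvPolynomial σ k) (n : ℕ) (f : MvPolynomial (Fin 3) k)
    (hf : f.IsHomogeneous (p ^ n)) (hh : h1 ^ p ^ n = h2 ^ p ^ n + aeval ![a0, a1, a2] f)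
    (h : CutByTwo (cone ![a0, a1, a2, h2])) : CutByTwo (cone ![a0, a1, a2, h1]) := by
  have hq : 0 < p ^ n := pow_pos (Fact.out : p.Prime).pos _
  let f4 : MvPolynomial (Fin 4) k := rename Fin.castSucc f
  have hf4 : ∀ x : Fin 4 → k, eval x f4 = eval ![x 0, x 1, x 2] f := by
    intro x
    rw [eval_rename]
    congr 2
    funext i
    fin_cases i <;> rfl
  let Φ : Fin 4 → MvPolynomial (Fin 4) k :=
    ![X 0 ^ p ^ n, X 1 ^ p ^ n, X 2 ^ p ^ n, X 3 ^ p ^ n - f4]
  have hΦ : ∀ x : Fin 4 → k, (fun i => eval x (Φ i)) =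
      ![x 0 ^ p ^ n, x 1 ^ p ^ n, x 2 ^ p ^ n, x 3 ^ p ^ n - eval ![x 0, x 1, x 2] f] := by
    intro x
    funext i
    fin_cases i <;> simp [Φ, hf4]
  have h' := ((cutByTwo_cone_pow_iff p _ n).2 h).preimage Φ hq (fun i => by
      fin_cases i
      · exact isHomogeneous_X_pow _ _
      · exact isHomogeneous_X_pow _ _
      · exact isHomogeneous_X_pow _ _
      · exact (isHomogeneous_X_pow _ _).sub hf.rename_isHomogeneous) (fun y => by
      obtain ⟨x0, hx0⟩ := IsAlgClosed.exists_pow_nat_eq (y 0) hq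
      obtain ⟨x1, hx1⟩ := IsAlgClosed.exists_pow_nat_eq (y 1) hq
      obtain ⟨x2, hx2⟩ := IsAlgClosed.exists_pow_nat_eq (y 2) hq
      obtain ⟨x3, hx3⟩ := IsAlgClosed.exists_pow_nat_eq (y 3 + eval ![x0, x1, x2] f) hq
      refine ⟨![x0, x1, x2, x3], ?_⟩
      simp only [hΦ]
      funext i
      fin_cases i <;> simp [hx0, hx1, hx2, hx3])
  have hev : ∀ P : σ → k, eval P h1 ^ p ^ n =
      eval P h2 ^ p ^ n + eval ![eval P a0, eval P a1, eval P a2] f := by
    intro P
    have := congrArg (eval P) hh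
    rw [map_pow, map_add, map_pow, eval_aeval'] at this
    rw [this]
    congr 3
    funext i
    fin_cases i <;> rfl
  convert h' using 1
  ext x
  simp only [cone, Set.mem_range, Set.mem_preimage, hΦ]
  constructor
  · rintro ⟨P, rfl⟩
    refine ⟨P, funext fun i => ?_⟩
    fin_cases i <;> simp [hev]
  · rintro ⟨P, hP⟩
    have e0 : eval P a0 = x 0 := pow_q_inj p n (by simpa using congrFun hP 0)
    have e1 : eval P a1 = x 1 := pow_q_inj p n (by simpa using congrFun hP 1)
    have e2 : eval P a2 = x 2 := pow_q_inj p n (by simpa using congrFun hP 2)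
    have e3 : eval P h1 = x 3 := by
      refine pow_q_inj p n ?_
      have : eval P h2 ^ p ^ n = x 3 ^ p ^ n - eval ![x 0, x 1, x 2] f := by
        simpa using congrFun hP 3
      rw [hev, this, e0, e1, e2]; ring
    refine ⟨P, funext fun i => ?_⟩
    fin_cases i <;> simp [e0, e1, e2, e3]

/-- THE MOVE. `a0, a1, a2` forms of degree `D > 0` without common zero; the last coordinate may be
replaced by any form of degree `D` with the same differences on the fibres of `(a0,a1,a2)`. -/
theorem cutByTwo_move {k σ : Type*} [Field k] [IsAlgClosed k] (p : ℕ) [hp : Fact p.Prime]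
    [CharP k p] [Fintype σ] (a0 a1 a2 h1 h2 : MvPolynomial σ k) {D : ℕ} (hD : 0 < D)
    (ha0 : a0.IsHomogeneous D) (ha1 : a1.IsHomogeneous D) (ha2 : a2.IsHomogeneous D)
    (hh1 : h1.IsHomogeneous D) (hh2 : h2.IsHomogeneous D)
    (hz : ∀ x : σ → k, eval x a0 = 0 → eval x a1 = 0 → eval x a2 = 0 → x = 0)
    (hsep : ∀ x y : σ → k, eval x a0 = eval y a0 → eval x a1 = eval y a1 →
      eval x a2 = eval y a2 → eval x h1 - eval y h1 = eval x h2 - eval y h2)
    (h : CutByTwo (cone ![a0, a1, a2, h2])) : CutByTwo (cone ![a0, a1, a2, h1]) := by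
  obtain ⟨n, f, hf, hn⟩ := move_lemma p ![a0, a1, a2] (h1 - h2) hD
    (fun i => by fin_cases i <;> assumption) (hh1.sub hh2)
    (fun x hx => hz x (hx 0) (hx 1) (hx 2))
    (fun x y hxy => by
      have := hsep x y (hxy 0) (hxy 1) (hxy 2)
      rw [map_sub, map_sub]
      linear_combination this)
  refine cutByTwo_shear p a0 a1 a2 h1 h2 n f hf ?_ h
  rw [← hn, sub_pow_char_pow]; ring

end H33s
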