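import Pool.Agent.MP_b04567_ag.Ch.Move

open MvPolynomial

namespace H33s

variable {k : Type*} [Field k]

theorem eval_smul_homog {σ : Type*} {W : MvPolynomial σ k} {d : ℕ} (hW : W.IsHomogeneous d)
    (c : k) (x : σ → k) : eval (c • x) W = c ^ d * eval x W := by
  classical
  rw [eval_eq, eval_eq, Finset.mul_sum]
  refine Finset.sum_congr rfl fun s hs => ?_
  rw [hW.degree_eq_sum_deg_support hs, ← Finset.prod_pow_eq_pow_sum, mul_left_comm,
    ← Finset.prod_mul_distrib]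
  simp only [Pi.smul_apply, smul_eq_mul, mul_pow]

/-- The determinant of two points of the plane. -/
def det2 (x y : Fin 2 → k) : k := x 0 * y 1 - x 1 * y 0

/-- The linear form vanishing at `P`. -/
noncomputable def lin (P : Fin 2 → k) : MvPolynomial (Fin 2) k := X 0 * C (P 1) - X 1 * C (P 0)

theorem eval_lin (x P : Fin 2 → k) : eval x (lin P) = det2 x P := by simp [lin, det2]

theorem lin_homog (P : Fin 2 → k) : (lin P).IsHomogeneous 1 :=
  ((isHomogeneous_X k 0).mul (isHomogeneous_C _ _)).sub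
    ((isHomogeneous_X k 1).mul (isHomogeneous_C _ _))

theorem det2_self (x : Fin 2 → k) : det2 x x = 0 := by simp [det2, mul_comm]

theorem det2_swap (x y : Fin 2 → k) : det2 x y = -det2 y x := by simp [det2]; ring

theorem det2_ne_swap {x y : Fin 2 → k} (h : det2 x y ≠ 0) : det2 y x ≠ 0 := by
  rw [det2_swap]; exact neg_ne_zero.2 h

theorem exists_smul_of_det2 {x P : Fin 2 → k} (hP : P ≠ 0) (h : det2 x P = 0) :
    ∃ c : k, x = c • P := by
  by_cases h0 : P 0 = 0
  · have h1 : P 1 ≠ 0 := fun h1 => hP (funext fun i => by fin_cases i <;> assumption)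
    refine ⟨x 1 / P 1, funext fun i => ?_⟩
    have : x 0 = 0 := by simpa [det2, h0, h1] using h
    fin_cases i
    · simp [this, h0]
    · simp [h1]
  · refine ⟨x 0 / P 0, funext fun i => ?_⟩
    fin_cases i
    · simp [h0]
    · simp only [det2] at h
      simp only [Fin.mk_one, Fin.isValue, Pi.smul_apply, smul_eq_mul]
      field_simp
      linear_combination -h

theorem exists_det2_ne {P : Fin 2 → k} (hP : P ≠ 0) : ∃ Q : Fin 2 → k, det2 P Q ≠ 0 := by
  by_cases h0 : P 0 = 0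
  · have h1 : P 1 ≠ 0 := fun h1 => hP (funext fun i => by fin_cases i <;> assumption)
    exact ⟨![1, 0], by simp [det2, h1]⟩
  · exact ⟨![0, 1], by simp [det2, h0]⟩

/-- A binary form as a polynomial in one variable. -/
theorem exists_dehomog {W : MvPolynomial (Fin 2) k} {d : ℕ} (hW : W.IsHomogeneous d) :
    ∃ w : Polynomial k, w.natDegree ≤ d ∧ w.homogenize d = W ∧
      (∀ a : k, eval ![a, 1] W = w.eval a) ∧ eval ![1, 0] W = w.coeff d := by
  have h1 := Polynomial.homogenize_eq_of_isHomogeneous hW rfl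
  set w : Polynomial k := aeval ![Polynomial.X, 1] W with hw
  have hd : w.natDegree ≤ d := by
    rw [hw, W.as_sum, map_sum]
    refine Polynomial.natDegree_sum_le_of_forall_le _ _ fun s hs => ?_
    have hs' : s 0 + s 1 = d := by
      rw [hW.degree_eq_sum_deg_support hs, ← Finsupp.degree_apply, Finsupp.degree_eq_sum]
      simp
    rw [aeval_monomial, Finsupp.prod_fintype _ _ (by simp)]
    simp only [Fin.prod_univ_two, Matrix.cons_val_zero, Matrix.cons_val_one, one_pow, mul_one,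
      Polynomial.algebraMap_apply]
    refine (Polynomial.natDegree_C_mul_le _ _).trans ?_
    rw [Polynomial.natDegree_X_pow]; omega
  refine ⟨w, hd, h1, fun a => ?_, ?_⟩
  · rw [← h1, Polynomial.eval_homogenize hd _ (by simp)]
    simp
  · rw [← h1, Polynomial.homogenize, map_sum, Finset.sum_eq_single (d, 0)]
    · simp [eval_monomial, Finsupp.prod_fintype]
    · rintro ⟨a, b⟩ hab hne
      have hb : b ≠ 0 := by
        rintro rfl
        apply hne
        simpa using hab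
      simp [eval_monomial, Finsupp.prod_fintype, hb]
    · simp

theorem exists_root_form [IsAlgClosed k] {W : MvPolynomial (Fin 2) k} {d : ℕ}
    (hW : W.IsHomogeneous d) (hd : 0 < d) : ∃ x : Fin 2 → k, x ≠ 0 ∧ eval x W = 0 := by
  obtain ⟨w, -, -, hev, hco⟩ := exists_dehomog hW
  by_cases h : w.coeff d = 0
  · exact ⟨![1, 0], fun h0 => by simpa using congrFun h0 0, by rw [hco, h]⟩
  · have : w.degree ≠ 0 := by
      intro h0
      have := Polynomial.le_degree_of_ne_zero h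
      rw [h0] at this
      have : d ≤ 0 := by exact_mod_cast this
      omega
    obtain ⟨a, ha⟩ := IsAlgClosed.exists_root w this
    exact ⟨![a, 1], fun h0 => by simpa using congrFun h0 1, by rw [hev]; exact ha⟩

theorem exists_cover {W : MvPolynomial (Fin 2) k} {d : ℕ} (hW : W.IsHomogeneous d) (h0 : W ≠ 0) :
    ∃ S : Finset (Fin 2 → k), S.card ≤ d ∧ (∀ P ∈ S, P ≠ 0) ∧
      ∀ x, x ≠ 0 → eval x W = 0 → ∃ P ∈ S, det2 x P = 0 := by
  classical
  obtain ⟨w, hd, hw, hev, hco⟩ := exists_dehomog hW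
  have hw0 : w ≠ 0 := by
    rintro rfl
    exact h0 (by rw [← hw, Polynomial.homogenize_zero])
  let S0 : Finset (Fin 2 → k) := w.roots.toFinset.image fun a => ![a, 1]
  have hS0 : S0.card ≤ w.natDegree :=
    Finset.card_image_le.trans ((Multiset.toFinset_card_le _).trans (Polynomial.card_roots' w))
  have hne : ∀ P ∈ S0, P ≠ 0 := by
    intro P hP
    obtain ⟨a, -, rfl⟩ := Finset.mem_image.1 hP
    exact fun h => by simpa using congrFun h 1
  have hfin : ∀ x : Fin 2 → k, x 1 ≠ 0 → eval x W = 0 → ∃ P ∈ S0, det2 x P = 0 := by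
    intro x hx hxW
    rw [← hw, Polynomial.eval_homogenize hd x hx, mul_eq_zero] at hxW
    have := hxW.resolve_right (pow_ne_zero _ hx)
    refine ⟨![x 0 / x 1, 1], Finset.mem_image.2 ⟨x 0 / x 1, ?_, rfl⟩, ?_⟩
    · rw [Multiset.mem_toFinset, Polynomial.mem_roots hw0]; exact this
    · simp only [det2, Matrix.cons_val_one, Matrix.cons_val_zero]
      field_simp
      ring
  by_cases h : w.coeff d = 0
  · have hlt : w.natDegree < d := by
      refine lt_of_le_of_ne hd fun he => hw0 ?_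
      rw [← Polynomial.leadingCoeff_eq_zero, Polynomial.leadingCoeff, he, h]
    refine ⟨insert ![1, 0] S0, (Finset.card_insert_le _ _).trans (by omega), fun P hP => ?_,
      fun x _ hxW => ?_⟩
    · rcases Finset.mem_insert.1 hP with rfl | hP
      · exact fun h => by simpa using congrFun h 0
      · exact hne P hP
    · by_cases hx : x 1 = 0
      · exact ⟨![1, 0], Finset.mem_insert_self _ _, by simp [det2, hx]⟩
      · obtain ⟨P, hP, hP'⟩ := hfin x hx hxW
        exact ⟨P, Finset.mem_insert_of_mem hP, hP'⟩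
  · refine ⟨S0, hS0.trans hd, hne, fun x hx0 hxW => hfin x (fun hx => ?_) hxW⟩
    have hx' : x = x 0 • ![1, 0] := funext fun i => by fin_cases i <;> simp [hx]
    have hx00 : x 0 ≠ 0 := fun h00 => hx0 (funext fun i => by fin_cases i <;> assumption)
    rw [hx', eval_smul_homog hW, hco] at hxW
    exact mul_ne_zero (pow_ne_zero _ hx00) h hxW

theorem exists_two_nonroots [Infinite k] {W : MvPolynomial (Fin 2) k} {d : ℕ}
    (hW : W.IsHomogeneous d) (h0 : W ≠ 0) :
    ∃ a b : k, a ≠ b ∧ eval ![a, 1] W ≠ 0 ∧ eval ![b, 1] W ≠ 0 := by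
  classical
  obtain ⟨w, -, hw, hev, -⟩ := exists_dehomog hW
  have hw0 : w ≠ 0 := by
    rintro rfl
    exact h0 (by rw [← hw, Polynomial.homogenize_zero])
  obtain ⟨a, ha⟩ := Infinite.exists_notMem_finset w.roots.toFinset
  obtain ⟨b, hb⟩ := Infinite.exists_notMem_finset (insert a w.roots.toFinset)
  rw [Finset.mem_insert, not_or] at hb
  refine ⟨a, b, fun h => hb.1 h.symm, ?_, ?_⟩
  · rw [hev]; simpa [Polynomial.mem_roots hw0] using ha
  · rw [hev]; simpa [Polynomial.mem_roots hw0] using hb.2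

/-- An invertible linear change of the last two coordinates. -/
theorem cut_lin2 [Infinite k] {σ : Type*} (a0 a1 a2 a3 : MvPolynomial σ k) (α β γ δ : k)
    (hdet : α * δ - β * γ ≠ 0)
    (h : CutByTwo (cone ![a0, a1, C α * a2 + C β * a3, C γ * a2 + C δ * a3])) :
    CutByTwo (cone ![a0, a1, a2, a3]) := by
  let Φ : Fin 4 → MvPolynomial (Fin 4) k :=
    ![X 0, X 1, C α * X 2 + C β * X 3, C γ * X 2 + C δ * X 3]
  have hΦ : ∀ x : Fin 4 → k, (fun i => eval x (Φ i)) =
      ![x 0, x 1, α * x 2 + β * x 3, γ * x 2 + δ * x 3] := by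
    intro x
    funext i
    fin_cases i <;> simp [Φ]
  have h' := h.preimage Φ one_pos (fun i => by
      fin_cases i
      · exact isHomogeneous_X _ _
      · exact isHomogeneous_X _ _
      · exact (isHomogeneous_C_mul_X _ _).add (isHomogeneous_C_mul_X _ _)
      · exact (isHomogeneous_C_mul_X _ _).add (isHomogeneous_C_mul_X _ _)) (fun y => by
      refine ⟨![y 0, y 1, (δ * y 2 - β * y 3) / (α * δ - β * γ),
        (α * y 3 - γ * y 2) / (α * δ - β * γ)], ?_⟩
      simp only [hΦ]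
      funext i
      fin_cases i
      · simp
      · simp
      · simp only [Fin.reduceFinMk, Matrix.cons_val]
        rw [← mul_div_assoc, ← mul_div_assoc, ← add_div, div_eq_iff hdet]
        ring
      · simp only [Fin.reduceFinMk, Matrix.cons_val]
        rw [← mul_div_assoc, ← mul_div_assoc, ← add_div, div_eq_iff hdet]
        ring)
  convert h' using 1
  ext x
  simp only [cone, Set.mem_range, Set.mem_preimage, hΦ]
  constructor
  · rintro ⟨P, rfl⟩
    refine ⟨P, funext fun i => ?_⟩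
    fin_cases i <;> simp
  · rintro ⟨P, hP⟩
    have e0 : eval P a0 = x 0 := by simpa using congrFun hP 0
    have e1 : eval P a1 = x 1 := by simpa using congrFun hP 1
    have e2 : α * eval P a2 + β * eval P a3 = α * x 2 + β * x 3 := by simpa using congrFun hP 2
    have e3 : γ * eval P a2 + δ * eval P a3 = γ * x 2 + δ * x 3 := by simpa using congrFun hP 3
    have f2 : eval P a2 = x 2 := by
      apply mul_left_cancel₀ hdet
      linear_combination δ * e2 - β * e3
    have f3 : eval P a3 = x 3 := by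
      apply mul_left_cancel₀ hdet
      linear_combination α * e3 - γ * e2
    refine ⟨P, funext fun i => ?_⟩
    fin_cases i <;> simp [e0, e1, f2, f3]

theorem cut_lin2' [Infinite k] {σ : Type*} (a0 a1 a2 a3 : MvPolynomial σ k) (α β γ δ : k)
    (hdet : α * δ - β * γ ≠ 0) (h : CutByTwo (cone ![a0, a1, a2, a3])) :
    CutByTwo (cone ![a0, a1, C α * a2 + C β * a3, C γ * a2 + C δ * a3]) := by
  have hu : (C (α * δ - β * γ)⁻¹ : MvPolynomial σ k) * (C α * C δ - C β * C γ) = 1 := by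
    rw [← map_mul, ← map_mul, ← map_sub, ← map_mul, inv_mul_cancel₀ hdet, map_one]
  refine cut_lin2 _ _ _ _ (δ * (α * δ - β * γ)⁻¹) (-β * (α * δ - β * γ)⁻¹)
    (-γ * (α * δ - β * γ)⁻¹) (α * (α * δ - β * γ)⁻¹) ?_ ?_
  · have : δ * (α * δ - β * γ)⁻¹ * (α * (α * δ - β * γ)⁻¹) -
        -β * (α * δ - β * γ)⁻¹ * (-γ * (α * δ - β * γ)⁻¹) = (α * δ - β * γ)⁻¹ := by
      field_simp
    rw [this]
    exact inv_ne_zero hdet
  · have e2 : C (δ * (α * δ - β * γ)⁻¹) * (C α * a2 + C β * a3) +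
        C (-β * (α * δ - β * γ)⁻¹) * (C γ * a2 + C δ * a3) = a2 := by
      simp only [map_mul, map_neg]
      linear_combination a2 * hu
    have e3 : C (-γ * (α * δ - β * γ)⁻¹) * (C α * a2 + C β * a3) +
        C (α * (α * δ - β * γ)⁻¹) * (C γ * a2 + C δ * a3) = a3 := by
      simp only [map_mul, map_neg]
      linear_combination a3 * hu
    rw [e2, e3]
    exact h

theorem cut_swap23 [Infinite k] {σ : Type*} (a0 a1 a2 a3 : MvPolynomial σ k)
    (h : CutByTwo (cone ![a0, a1, a2, a3])) : CutByTwo (cone ![a0, a1, a3, a2]) := by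
  convert cutByTwo_cone_perm _ (Equiv.swap 2 3) h using 2
  funext i
  fin_cases i <;> rfl

theorem cut_swap_pairs [Infinite k] {σ : Type*} (a0 a1 a2 a3 : MvPolynomial σ k)
    (h : CutByTwo (cone ![a0, a1, a2, a3])) : CutByTwo (cone ![a2, a3, a0, a1]) := by
  convert cutByTwo_cone_perm _ (Equiv.swap 0 2 * Equiv.swap 1 3) h using 2
  funext i
  fin_cases i <;> rfl

theorem eval_zero_homog {σ : Type*} {W : MvPolynomial σ k} {d : ℕ} (hW : W.IsHomogeneous d)
    (hd : 0 < d) : eval (0 : σ → k) W = 0 := by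
  have := eval_smul_homog hW 0 0
  rwa [zero_smul, zero_pow hd.ne', zero_mul] at this

theorem det2_trans {P Q x : Fin 2 → k} (hx : x ≠ 0) (h1 : det2 P x = 0) (h2 : det2 Q x = 0) :
    det2 P Q = 0 := by
  obtain ⟨c, rfl⟩ := exists_smul_of_det2 hx h1
  obtain ⟨d, rfl⟩ := exists_smul_of_det2 hx h2
  simp [det2]; ring

theorem eq_zero_two {x : Fin 2 → k} (h0 : x 0 = 0) (h1 : x 1 = 0) : x = 0 :=
  funext fun i => by fin_cases i <;> assumption

theorem move_one' [IsAlgClosed k] (p : ℕ) [hp : Fact p.Prime] [CharP k p] (j : ℕ) {B : ℕ}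
    (hB : 0 < B) (U Y w h1 h2 : MvPolynomial (Fin 2) k) (a : k) (hU : U.IsHomogeneous B)
    (hw : w.IsHomogeneous (p ^ j + B)) (hh1 : h1.IsHomogeneous (p ^ j + B))
    (hh2 : h2.IsHomogeneous (p ^ j + B)) (ha : eval ![a, 1] U ≠ 0)
    (hUY : ∀ x, eval x U = 0 → eval x Y = 0 → x = 0)
    (hwe : ∀ x, eval x U = 0 →
      eval x w = (x 0 ^ p ^ j - a ^ p ^ j * x 1 ^ p ^ j) * eval x Y)
    (hh : ∀ x, eval x U = 0 → eval x h1 = eval x h2)
    (h : CutByTwo (cone ![X 0 ^ p ^ j * U, X 1 ^ p ^ j * U, w, h2])) :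
    CutByTwo (cone ![X 0 ^ p ^ j * U, X 1 ^ p ^ j * U, w, h1]) := by
  have hr : p ^ j ≠ 0 := pow_ne_zero _ hp.out.ne_zero
  have key : ∀ x y : Fin 2 → k, x 0 ^ p ^ j * eval x U = y 0 ^ p ^ j * eval y U →
      x 1 ^ p ^ j * eval x U = y 1 ^ p ^ j * eval y U → eval x U = 0 → eval y U = 0 := by
    intro x y e0 e1 hx
    by_contra hy
    rw [hx, mul_zero, eq_comm, mul_eq_zero] at e0 e1
    have : y = 0 := eq_zero_two (pow_eq_zero_iff hr |>.1 (e0.resolve_right hy))
      (pow_eq_zero_iff hr |>.1 (e1.resolve_right hy))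
    exact hy (by rw [this, eval_zero_homog hU hB])
  refine cutByTwo_move p _ _ _ h1 h2 (D := p ^ j + B) (by omega)
    ((isHomogeneous_X_pow _ _).mul hU) ((isHomogeneous_X_pow _ _).mul hU) hw hh1 hh2 ?_ ?_ h
  · intro x e0 e1 e2
    simp only [map_mul, map_pow, eval_X, mul_eq_zero, pow_eq_zero_iff hr] at e0 e1
    by_cases hx : eval x U = 0
    · rw [hwe x hx, mul_eq_zero] at e2
      rcases e2 with e2 | e2
      · rw [sub_eq_zero, ← mul_pow] at e2
        have e3 := pow_q_inj p j e2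
        have hx' : x = x 1 • ![a, 1] := funext fun i => by
          fin_cases i
          · simp [e3, mul_comm]
          · simp
        rw [hx', eval_smul_homog hU, mul_eq_zero] at hx
        have h1 : x 1 = 0 := pow_eq_zero_iff hB.ne' |>.1 (hx.resolve_right ha)
        exact eq_zero_two (by rw [e3, h1, mul_zero]) h1
      · exact hUY x hx e2
    · exact eq_zero_two (e0.resolve_right hx) (e1.resolve_right hx)
  · intro x y e0 e1 _
    simp only [map_mul, map_pow, eval_X] at e0 e1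
    by_cases hx : eval x U = 0
    · rw [hh x hx, hh y (key x y e0 e1 hx)]
    · have hy : eval y U ≠ 0 := fun hy => hx (key y x e0.symm e1.symm hy)
      have hx0 : x ≠ 0 := fun h0 => hx (by rw [h0, eval_zero_homog hU hB])
      have hdet : det2 y x = 0 := by
        rw [det2, sub_eq_zero]
        refine pow_q_inj p j ?_
        apply mul_right_cancel₀ (mul_ne_zero hx hy)
        rw [mul_pow, mul_pow]
        linear_combination (y 0 ^ p ^ j * eval y U) * e1 - (y 1 ^ p ^ j * eval y U) * e0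
      obtain ⟨c, rfl⟩ := exists_smul_of_det2 hx0 hdet
      have hc : c ^ (p ^ j + B) = 1 := by
        rw [eval_smul_homog hU] at e0 e1
        simp only [Pi.smul_apply, smul_eq_mul, mul_pow] at e0 e1
        by_contra hc
        have hc' : c ^ (p ^ j + B) - 1 ≠ 0 := sub_ne_zero.2 hc
        apply hx0
        refine eq_zero_two (pow_eq_zero_iff hr |>.1 ?_) (pow_eq_zero_iff hr |>.1 ?_)
        · apply mul_left_cancel₀ (mul_ne_zero hc' hx)
          rw [pow_add]
          linear_combination -e0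
        · apply mul_left_cancel₀ (mul_ne_zero hc' hx)
          rw [pow_add]
          linear_combination -e1
      rw [eval_smul_homog hh1, eval_smul_homog hh2, hc]
      ring

theorem step_replace [IsAlgClosed k] (p : ℕ) [hp : Fact p.Prime] [CharP k p] (j : ℕ) {B : ℕ}
    (hB : 0 < B) (U V V' : MvPolynomial (Fin 2) k) (hU : U.IsHomogeneous B)
    (hV : V.IsHomogeneous B) (hV' : V'.IsHomogeneous B)
    (hUV : ∀ x, eval x U = 0 → eval x V = 0 → x = 0)
    (hVV : ∀ x, eval x U = 0 → eval x V = eval x V')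
    (h : CutByTwo (cone
      ![X 0 ^ p ^ j * U, X 1 ^ p ^ j * U, X 0 ^ p ^ j * V', X 1 ^ p ^ j * V'])) :
    CutByTwo (cone ![X 0 ^ p ^ j * U, X 1 ^ p ^ j * U, X 0 ^ p ^ j * V, X 1 ^ p ^ j * V]) := by
  have hU0 : U ≠ 0 := by
    rintro rfl
    obtain ⟨x, hx, hxV⟩ := exists_root_form hV hB
    exact hx (hUV x (map_zero _) hxV)
  obtain ⟨a, b, hab, ha, hb⟩ := exists_two_nonroots hU hU0
  have hdet : (1 : k) * (-b ^ p ^ j) - (-a ^ p ^ j) * 1 ≠ 0 := by
    intro h0
    exact hab (pow_q_inj p j (by linear_combination h0))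
  have hUV' : ∀ x, eval x U = 0 → eval x V' = 0 → x = 0 := fun x h1 h2 =>
    hUV x h1 (by rw [hVV x h1, h2])
  have hom : ∀ (c : k) (Y : MvPolynomial (Fin 2) k), Y.IsHomogeneous B →
      (C 1 * (X 0 ^ p ^ j * Y) + C (-c ^ p ^ j) * (X 1 ^ p ^ j * Y)).IsHomogeneous (p ^ j + B) :=
    fun c Y hY => (((isHomogeneous_X_pow _ _).mul hY).C_mul _).add
      (((isHomogeneous_X_pow _ _).mul hY).C_mul _)
  have ev : ∀ (c : k) (Y : MvPolynomial (Fin 2) k) (x : Fin 2 → k),
      eval x (C 1 * (X 0 ^ p ^ j * Y) + C (-c ^ p ^ j) * (X 1 ^ p ^ j * Y)) =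
        (x 0 ^ p ^ j - c ^ p ^ j * x 1 ^ p ^ j) * eval x Y := by
    intro c Y x
    simp only [map_add, map_mul, map_pow, eval_C, eval_X]
    ring
  have h1 := cut_lin2' _ _ _ _ 1 (-a ^ p ^ j) 1 (-b ^ p ^ j) hdet h
  have h2 := move_one' p j hB U V' _ _ _ a hU (hom a V' hV') (hom b V hV) (hom b V' hV') ha hUV'
    (fun x _ => ev a V' x) (fun x hx => by rw [ev, ev, hVV x hx]) h1
  have h3 := move_one' p j hB U V _ _ _ b hU (hom b V hV) (hom a V hV) (hom a V' hV') hb hUV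
    (fun x _ => ev b V x) (fun x hx => by rw [ev, ev, hVV x hx]) (cut_swap23 _ _ _ _ h2)
  exact cut_lin2 _ _ _ _ 1 (-a ^ p ^ j) 1 (-b ^ p ^ j) hdet (cut_swap23 _ _ _ _ h3)

theorem reduce_roots [IsAlgClosed k] {B : ℕ} (V : MvPolynomial (Fin 2) k)
    (S : Finset (Fin 2 → k)) (hS : ∀ P ∈ S, ∀ Q ∈ S, P ≠ Q → det2 P Q ≠ 0)
    (hV : ∀ P ∈ S, eval P V ≠ 0) (h2 : 2 ≤ S.card) (hB : S.card ≤ B + 1) :
    ∃ V' : MvPolynomial (Fin 2) k, V'.IsHomogeneous B ∧ (∀ P ∈ S, eval P V' = eval P V) ∧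
      ∃ S' : Finset (Fin 2 → k), S'.card < S.card ∧ (∀ P ∈ S', P ≠ 0) ∧
        ∀ x, x ≠ 0 → eval x V' = 0 → ∃ P ∈ S', det2 x P = 0 := by
  classical
  obtain ⟨Z, hZ⟩ : S.Nonempty := Finset.card_pos.1 (by omega)
  set T := S.erase Z with hT
  have hTc : T.card = S.card - 1 := Finset.card_erase_of_mem hZ
  have hTS : ∀ i ∈ T, i ∈ S := fun i hi => Finset.mem_of_mem_erase hi
  have hTZ : ∀ i ∈ T, i ≠ Z := fun i hi => Finset.ne_of_mem_erase hi
  obtain ⟨e, he⟩ : ∃ e, e + T.card = B + 1 := ⟨B + 1 - T.card, by omega⟩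
  have he0 : e ≠ 0 := by omega
  let c : (Fin 2 → k) → k := fun j => eval j V * ∏ i ∈ T.erase j, ((det2 j i)⁻¹ * det2 Z i)
  have hlin : ∀ P : Fin 2 → k, ((-lin P) ^ e).IsHomogeneous e := fun P => by
    simpa using (lin_homog P).neg.pow e
  let E : MvPolynomial (Fin 2) k :=
    ∑ j ∈ T, C (c j) * ((-lin Z) ^ e * ∏ i ∈ T.erase j, (-lin i) ^ e) -
      C (eval Z V) * ∏ i ∈ T, (-lin i) ^ e
  have hE : E.IsHomogeneous (T.card * e) := by
    refine (IsHomogeneous.sum _ _ _ fun j hj => IsHomogeneous.C_mul ?_ _).sub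
      (IsHomogeneous.C_mul ?_ _)
    · have := (hlin Z).mul (IsHomogeneous.prod (T.erase j) (fun i => (-lin i) ^ e) (fun _ => e)
        fun i _ => hlin i)
      rw [Finset.sum_const, smul_eq_mul, Finset.card_erase_of_mem hj] at this
      obtain ⟨n, hn⟩ : ∃ n, T.card = n + 1 := ⟨T.card - 1, by omega⟩
      rw [hn, Nat.add_sub_cancel] at this
      rw [hn, show (n + 1) * e = e + n * e by ring]
      exact this
    · have := IsHomogeneous.prod T (fun i => (-lin i) ^ e) (fun _ => e) fun i _ => hlin i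
      rwa [Finset.sum_const, smul_eq_mul] at this
  obtain ⟨x, hx0, hxE⟩ := exists_root_form hE (Nat.mul_pos (by omega) (by omega))
  have hneg : ∀ P : Fin 2 → k, -det2 x P = det2 P x := fun P => (det2_swap P x).symm
  simp only [E, map_sub, map_sum, map_mul, map_pow, map_prod, map_neg, eval_C, eval_lin,
    hneg] at hxE
  have hxZ : det2 Z x ≠ 0 := by
    intro h0
    rw [h0, zero_pow he0] at hxE
    simp only [zero_mul, mul_zero, Finset.sum_const_zero, zero_sub, neg_eq_zero, mul_eq_zero,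
      Finset.prod_eq_zero_iff, pow_eq_zero_iff he0] at hxE
    rcases hxE with h | ⟨i, hi, h⟩
    · exact hV Z hZ h
    · exact hS i (hTS i hi) Z hZ (hTZ i hi) (det2_trans hx0 h h0)
  have hxT : ∀ j ∈ T, det2 j x ≠ 0 := by
    intro j hj h0
    rw [Finset.prod_eq_zero hj (by rw [h0, zero_pow he0]), mul_zero, sub_zero,
      Finset.sum_eq_single j (fun b _ hbj => by
        rw [Finset.prod_eq_zero (Finset.mem_erase.2 ⟨hbj.symm, hj⟩) (by rw [h0, zero_pow he0]),
          mul_zero, mul_zero]) (fun h => absurd hj h)] at hxE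
    refine mul_ne_zero (mul_ne_zero (hV j (hTS j hj)) (Finset.prod_ne_zero_iff.2 fun i hi => ?_))
      (mul_ne_zero (pow_ne_zero _ hxZ) (Finset.prod_ne_zero_iff.2 fun i hi => pow_ne_zero _ ?_))
      hxE
    · have hi' := Finset.mem_erase.1 hi
      exact mul_ne_zero (inv_ne_zero (hS j (hTS j hj) i (hTS i hi'.2) hi'.1.symm))
        (hS Z hZ i (hTS i hi'.2) (hTZ i hi'.2).symm)
    · have hi' := Finset.mem_erase.1 hi
      exact fun h => hS i (hTS i hi'.2) j (hTS j hj) hi'.1 (det2_trans hx0 h h0)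
  let W : MvPolynomial (Fin 2) k := ∑ j ∈ T, C (eval j V * (det2 j x ^ e)⁻¹) *
    ∏ i ∈ T.erase j, (C (det2 j i)⁻¹ * lin i)
  have hW : W.IsHomogeneous (T.card - 1) := by
    refine IsHomogeneous.sum _ _ _ fun j hj => IsHomogeneous.C_mul ?_ _
    have := IsHomogeneous.prod (T.erase j) (fun i => C (det2 j i)⁻¹ * lin i) (fun _ => 1)
      fun i _ => (lin_homog i).C_mul _
    rwa [Finset.sum_const, smul_eq_mul, mul_one, Finset.card_erase_of_mem hj] at this
  have hWe : ∀ y, eval y W = ∑ j ∈ T, eval j V * (det2 j x ^ e)⁻¹ *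
      ∏ i ∈ T.erase j, ((det2 j i)⁻¹ * det2 y i) := by
    intro y
    simp only [W, map_sum, map_mul, map_prod, eval_C, eval_lin]
  have hWT : ∀ j ∈ T, eval j W * det2 j x ^ e = eval j V := by
    intro j hj
    rw [hWe, Finset.sum_eq_single j (fun b _ hbj => by
        rw [Finset.prod_eq_zero (Finset.mem_erase.2 ⟨hbj.symm, hj⟩)
          (by rw [det2_self, mul_zero]), mul_zero]) (fun h => absurd hj h),
      Finset.prod_eq_one fun i hi => inv_mul_cancel₀
        (hS j (hTS j hj) i (hTS i (Finset.mem_erase.1 hi).2) (Finset.mem_erase.1 hi).1.symm),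
      mul_one, inv_mul_cancel_right₀ (pow_ne_zero _ (hxT j hj))]
  have hWZ : eval Z W * det2 Z x ^ e = eval Z V := by
    have hP : ∏ i ∈ T, det2 i x ^ e ≠ 0 :=
      Finset.prod_ne_zero_iff.2 fun i hi => pow_ne_zero _ (hxT i hi)
    apply mul_right_cancel₀ hP
    rw [← sub_eq_zero.1 hxE, hWe, Finset.sum_mul, Finset.sum_mul]
    refine Finset.sum_congr rfl fun j hj => ?_
    rw [← Finset.mul_prod_erase T _ hj]
    have := pow_ne_zero e (hxT j hj)
    simp only [c]
    field_simp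
  obtain ⟨j0, hj0⟩ : T.Nonempty := Finset.card_pos.1 (by omega)
  have hW0 : W ≠ 0 := by
    intro h0
    have := hWT j0 hj0
    rw [h0, map_zero, zero_mul] at this
    exact hV j0 (hTS j0 hj0) this.symm
  obtain ⟨S1, hS1, hS1ne, hS1c⟩ := exists_cover hW hW0
  refine ⟨W * lin x ^ e, ?_, fun P hP => ?_, insert x S1,
    (Finset.card_insert_le _ _).trans_lt (by omega), fun P hP => ?_, fun y hy h0 => ?_⟩
  · convert hW.mul ((lin_homog x).pow e) using 1
    omega
  · rw [map_mul, map_pow, eval_lin]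
    by_cases hPZ : P = Z
    · rw [hPZ, hWZ]
    · exact hWT P (Finset.mem_erase.2 ⟨hPZ, hP⟩)
  · rcases Finset.mem_insert.1 hP with rfl | hP
    · exact hx0
    · exact hS1ne P hP
  · rw [map_mul, map_pow, eval_lin, mul_eq_zero, pow_eq_zero_iff he0] at h0
    rcases h0 with h0 | h0
    · obtain ⟨P, hP, hP'⟩ := hS1c y hy h0
      exact ⟨P, Finset.mem_insert_of_mem hP, hP'⟩
    · exact ⟨x, Finset.mem_insert_self _ _, h0⟩

theorem exists_lin_values {P Q : Fin 2 → k} (h : det2 P Q ≠ 0) (σ τ : k) :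
    ∃ x : Fin 2 → k, det2 x P = σ ∧ det2 x Q = τ := by
  refine ⟨![(τ * P 0 - σ * Q 0) / det2 P Q, (τ * P 1 - σ * Q 1) / det2 P Q], ?_, ?_⟩
  · rw [det2]
    simp only [Matrix.cons_val_zero, Matrix.cons_val_one]
    rw [div_mul_eq_mul_div, div_mul_eq_mul_div, ← sub_div, div_eq_iff h, det2]
    ring
  · rw [det2]
    simp only [Matrix.cons_val_zero, Matrix.cons_val_one]
    rw [div_mul_eq_mul_div, div_mul_eq_mul_div, ← sub_div, div_eq_iff h, det2]
    ring

theorem plane_mono [IsAlgClosed k] (p : ℕ) [hp : Fact p.Prime] [CharP k p] (j : ℕ) {B : ℕ}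
    (hB : 0 < B) {P Q : Fin 2 → k} (h : det2 P Q ≠ 0) :
    CutByTwo (cone ![lin P ^ p ^ j * lin P ^ B, lin Q ^ p ^ j * lin P ^ B,
      lin Q ^ p ^ j * lin Q ^ B, 0]) := by
  have hr : p ^ j ≠ 0 := pow_ne_zero _ hp.out.ne_zero
  have hD : 0 < p ^ j + B := by omega
  refine ⟨X 3, X 1 ^ (p ^ j + B) - X 0 ^ B * X 2 ^ p ^ j, 1, p ^ j + B, one_pos, hD,
    X_ne_zero _, fun h0 => ?_, isHomogeneous_X _ _, (isHomogeneous_X_pow _ _).sub ?_, ?_⟩
  · have := congrArg (eval ![(0 : k), 1, 0, 0]) h0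
    simp [hB.ne'] at this
  · rw [add_comm]
    exact (isHomogeneous_X_pow _ _).mul (isHomogeneous_X_pow _ _)
  · ext y
    simp only [cone, Set.mem_range, Set.mem_ofPred_eq, eval_X, map_sub, map_mul, map_pow]
    constructor
    · rintro ⟨x, rfl⟩
      simp only [Matrix.cons_val, map_zero, map_mul, map_pow, true_and]
      ring
    · rintro ⟨h3, h1⟩
      rw [sub_eq_zero] at h1
      obtain ⟨σ, hσ⟩ := IsAlgClosed.exists_pow_nat_eq (y 0) hD
      have : ∃ τ : k, τ ^ p ^ j * σ ^ B = y 1 ∧ τ ^ (p ^ j + B) = y 2 := by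
        by_cases h0 : σ = 0
        · obtain ⟨τ, hτ⟩ := IsAlgClosed.exists_pow_nat_eq (y 2) hD
          refine ⟨τ, ?_, hτ⟩
          rw [← hσ, h0, zero_pow hD.ne', zero_pow hB.ne', zero_mul, pow_eq_zero_iff hD.ne'] at h1
          rw [h0, h1, zero_pow hB.ne', mul_zero]
        · obtain ⟨τ, hτ⟩ := IsAlgClosed.exists_pow_nat_eq (y 1 / σ ^ B) (Nat.pos_of_ne_zero hr)
          have hτ' : τ ^ p ^ j * σ ^ B = y 1 := by
            rw [hτ, div_mul_cancel₀ _ (pow_ne_zero _ h0)]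
          refine ⟨τ, hτ', pow_q_inj p j ?_⟩
          apply mul_left_cancel₀ (pow_ne_zero B (pow_ne_zero (p ^ j + B) h0))
          conv_rhs => rw [hσ, ← h1, ← hτ']
          ring
      obtain ⟨τ, hτ1, hτ2⟩ := this
      obtain ⟨x, hx1, hx2⟩ := exists_lin_values h σ τ
      refine ⟨x, funext fun i => ?_⟩
      fin_cases i
      · simp [eval_lin, hx1, ← hσ, pow_add]
      · simp [eval_lin, hx1, hx2, hτ1]
      · simp [eval_lin, hx2, ← hτ2, pow_add]
      · simp [h3]

theorem space_mono [IsAlgClosed k] (p : ℕ) [hp : Fact p.Prime] [CharP k p] (j : ℕ) {B : ℕ}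
    (hB : 0 < B) {P Q : Fin 2 → k} (h : det2 P Q ≠ 0) :
    CutByTwo (cone ![lin P ^ p ^ j * lin P ^ B, lin Q ^ p ^ j * lin P ^ B,
      lin P ^ p ^ j * lin Q ^ B, lin Q ^ p ^ j * lin Q ^ B]) := by
  have hr : p ^ j ≠ 0 := pow_ne_zero _ hp.out.ne_zero
  have hD : 0 < p ^ j + B := by omega
  have hom : ∀ P Q : Fin 2 → k, (lin P ^ p ^ j * lin Q ^ B).IsHomogeneous (p ^ j + B) :=
    fun P Q => by simpa using ((lin_homog P).pow (p ^ j)).mul ((lin_homog Q).pow B)
  refine cut_swap23 _ _ _ _ (cutByTwo_move p _ _ _ _ 0 hD (hom P P) (hom Q P) (hom Q Q) (hom P Q)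
    (isHomogeneous_zero _ _ _) ?_ ?_ (plane_mono p j hB h))
  · intro x e0 _ e2
    simp only [map_pow, eval_lin, ← pow_add, pow_eq_zero_iff hD.ne'] at e0 e2
    by_contra hx
    exact h (det2_trans hx (by rw [det2_swap, e0, neg_zero]) (by rw [det2_swap, e2, neg_zero]))
  · intro x y e0 e1 e2
    simp only [map_mul, map_pow, eval_lin, map_zero, sub_zero] at e0 e1 e2 ⊢
    generalize det2 x P = s at *
    generalize det2 x Q = t at *
    generalize det2 y P = s' at *
    generalize det2 y Q = t' at *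
    rw [sub_eq_zero]
    by_cases hs : s = 0
    · have hs' : s' = 0 := by
        rw [← pow_add, ← pow_add, hs, zero_pow hD.ne', eq_comm, pow_eq_zero_iff hD.ne'] at e0
        exact e0
      rw [hs, hs', zero_pow hr, zero_mul, zero_mul]
    · have hs' : s' ≠ 0 := by
        intro hs'
        rw [← pow_add, ← pow_add, hs', zero_pow hD.ne', pow_eq_zero_iff hD.ne'] at e0
        exact hs e0
      have hc : t * s' = t' * s := by
        refine pow_q_inj p j ?_
        apply mul_right_cancel₀ (mul_ne_zero (pow_ne_zero B hs) (pow_ne_zero B hs'))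
        rw [mul_pow, mul_pow]
        linear_combination (s' ^ p ^ j * s' ^ B) * e1 - (t' ^ p ^ j * s' ^ B) * e0
      have hcB : t ^ B * s' ^ B = t' ^ B * s ^ B := by rw [← mul_pow, ← mul_pow, hc]
      apply mul_right_cancel₀ (mul_ne_zero (pow_ne_zero B hs) (pow_ne_zero B hs'))
      linear_combination (s ^ p ^ j * s ^ B) * hcB + (t' ^ B * s ^ B) * e0

theorem quad_mono [IsAlgClosed k] (p : ℕ) [hp : Fact p.Prime] [CharP k p] (j : ℕ) {B : ℕ}
    (hB : 0 < B) {P Q : Fin 2 → k} (h : det2 P Q ≠ 0) {c d : k} (hc : c ≠ 0) (hd : d ≠ 0) :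
    CutByTwo (cone ![X 0 ^ p ^ j * (C c * lin P ^ B), X 1 ^ p ^ j * (C c * lin P ^ B),
      X 0 ^ p ^ j * (C d * lin Q ^ B), X 1 ^ p ^ j * (C d * lin Q ^ B)]) := by
  have hdet : ∀ c : k, c ≠ 0 → P 1 ^ p ^ j * c⁻¹ * (-Q 0 ^ p ^ j * c⁻¹) -
      -P 0 ^ p ^ j * c⁻¹ * (Q 1 ^ p ^ j * c⁻¹) ≠ 0 := by
    intro c hc
    have : P 1 ^ p ^ j * c⁻¹ * (-Q 0 ^ p ^ j * c⁻¹) - -P 0 ^ p ^ j * c⁻¹ * (Q 1 ^ p ^ j * c⁻¹) =
        det2 P Q ^ p ^ j * (c⁻¹ * c⁻¹) := by
      rw [det2, sub_pow_char_pow]; ring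
    rw [this]
    exact mul_ne_zero (pow_ne_zero _ h) (mul_ne_zero (inv_ne_zero hc) (inv_ne_zero hc))
  have hl : ∀ (c : k) (R : Fin 2 → k) (Y : MvPolynomial (Fin 2) k), c ≠ 0 →
      C (R 1 ^ p ^ j * c⁻¹) * (X 0 ^ p ^ j * (C c * Y)) +
        C (-R 0 ^ p ^ j * c⁻¹) * (X 1 ^ p ^ j * (C c * Y)) = lin R ^ p ^ j * Y := by
    intro c R Y hc
    have hu : (C c⁻¹ : MvPolynomial (Fin 2) k) * C c = 1 := by
      rw [← map_mul, inv_mul_cancel₀ hc, map_one]
    rw [lin, sub_pow_char_pow]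
    simp only [map_mul, map_neg, map_pow, mul_pow]
    linear_combination (C (R 1) ^ p ^ j * X 0 ^ p ^ j * Y - C (R 0) ^ p ^ j * X 1 ^ p ^ j * Y) * hu
  refine cut_lin2 _ _ _ _ _ _ _ _ (hdet d hd) ?_
  rw [hl d P _ hd, hl d Q _ hd]
  refine cut_swap_pairs _ _ _ _ (cut_lin2 _ _ _ _ _ _ _ _ (hdet c hc) ?_)
  rw [hl c P _ hc, hl c Q _ hc]
  exact cut_swap_pairs _ _ _ _ (space_mono p j hB h)

theorem quad_cut [IsAlgClosed k] (p : ℕ) [hp : Fact p.Prime] [CharP k p] (j : ℕ) {B : ℕ}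
    (hB : 0 < B) (n : ℕ) : ∀ (U V : MvPolynomial (Fin 2) k), U.IsHomogeneous B →
    V.IsHomogeneous B → (∀ x, eval x U = 0 → eval x V = 0 → x = 0) →
    ∀ S : Finset (Fin 2 → k), S.card = n → n ≤ B + 1 → (∀ P ∈ S, P ≠ 0) →
    (∀ x, x ≠ 0 → eval x U = 0 → ∃ P ∈ S, det2 x P = 0) →
    CutByTwo (cone ![X 0 ^ p ^ j * U, X 1 ^ p ^ j * U, X 0 ^ p ^ j * V, X 1 ^ p ^ j * V]) := by
  classical
  induction n using Nat.strong_induction_on with
  | _ n ih =>
  intro U V hU hV hUV S hSn hn hS0 hcov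
  have herase : ∀ P ∈ S, (∀ x, x ≠ 0 → eval x U = 0 → det2 x P = 0 →
      ∃ Q ∈ S.erase P, det2 x Q = 0) → CutByTwo (cone
        ![X 0 ^ p ^ j * U, X 1 ^ p ^ j * U, X 0 ^ p ^ j * V, X 1 ^ p ^ j * V]) := by
    intro P hP hPx
    have hlt := Finset.card_erase_lt_of_mem hP
    refine ih _ (hSn ▸ hlt) U V hU hV hUV (S.erase P) rfl (by omega)
      (fun Q hQ => hS0 Q (Finset.mem_of_mem_erase hQ)) fun x hx hxU => ?_
    obtain ⟨Q, hQ, hQ'⟩ := hcov x hx hxU
    by_cases hQP : Q = P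
    · exact hPx x hx hxU (hQP ▸ hQ')
    · exact ⟨Q, Finset.mem_erase.2 ⟨hQP, hQ⟩, hQ'⟩
  by_cases h1 : ∃ P ∈ S, eval P U ≠ 0
  · obtain ⟨P, hP, hPU⟩ := h1
    refine herase P hP fun x hx hxU hxP => ?_
    obtain ⟨c, rfl⟩ := exists_smul_of_det2 (hS0 P hP) hxP
    rw [eval_smul_homog hU, mul_eq_zero, pow_eq_zero_iff hB.ne'] at hxU
    exact absurd (by rw [hxU.resolve_right hPU, zero_smul]) hx
  by_cases h2 : ∃ P ∈ S, ∃ Q ∈ S, P ≠ Q ∧ det2 P Q = 0
  · obtain ⟨P, hP, Q, hQ, hPQ, hd⟩ := h2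
    exact herase P hP fun x _ _ hxP => ⟨Q, Finset.mem_erase.2 ⟨hPQ.symm, hQ⟩,
      det2_trans (hS0 P hP) hxP (by rw [det2_swap, hd, neg_zero])⟩
  push Not at h1 h2
  have hVS : ∀ P ∈ S, eval P V ≠ 0 := fun P hP h => hS0 P hP (hUV P (h1 P hP) h)
  have hagree : ∀ V' : MvPolynomial (Fin 2) k, V'.IsHomogeneous B →
      (∀ P ∈ S, eval P V' = eval P V) → ∀ x, eval x U = 0 → eval x V = eval x V' := by
    intro V' hV' hP x hxU
    by_cases hx : x = 0
    · rw [hx, eval_zero_homog hV hB, eval_zero_homog hV' hB]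
    · obtain ⟨P, hPS, hd⟩ := hcov x hx hxU
      obtain ⟨c, rfl⟩ := exists_smul_of_det2 (hS0 P hPS) hd
      rw [eval_smul_homog hV, eval_smul_homog hV', hP P hPS]
  by_cases h3 : 2 ≤ S.card
  · obtain ⟨V', hV', hVe, S', hS', hS'0, hS'c⟩ := reduce_roots (B := B) V S h2 hVS h3 (by omega)
    have ha := hagree V' hV' hVe
    refine step_replace p j hB U V V' hU hV hV' hUV ha (cut_swap_pairs _ _ _ _ ?_)
    exact ih _ (hSn ▸ hS') V' U hV' hU (fun x e1 e2 => hUV x e2 (by rw [ha x e2, e1])) S' rfl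
      (by omega) hS'0 hS'c
  · obtain ⟨x0, hx0, hx0U⟩ := exists_root_form hU hB
    obtain ⟨P, hP, -⟩ := hcov x0 hx0 hx0U
    have hall : ∀ Q ∈ S, Q = P := fun Q hQ => Finset.card_le_one.1 (by omega) Q hQ P hP
    obtain ⟨Q, hQ⟩ := exists_det2_ne (hS0 P hP)
    have hQ0 : Q ≠ 0 := fun h => hQ (by simp [h, det2])
    have hQU : eval Q U ≠ 0 := fun h => by
      obtain ⟨R, hR, hd⟩ := hcov Q hQ0 h
      exact det2_ne_swap hQ (hall R hR ▸ hd)
    have hom : ∀ (c : k) (R : Fin 2 → k), (C c * lin R ^ B).IsHomogeneous B := fun c R => by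
      simpa using ((lin_homog R).pow B).C_mul c
    have hd : eval P V / det2 P Q ^ B ≠ 0 := div_ne_zero (hVS P hP) (pow_ne_zero _ hQ)
    have hc : eval Q U / det2 Q P ^ B ≠ 0 := div_ne_zero hQU (pow_ne_zero _ (det2_ne_swap hQ))
    have ha := hagree _ (hom (eval P V / det2 P Q ^ B) Q) fun R hR => by
      rw [hall R hR, map_mul, map_pow, eval_C, eval_lin, div_mul_cancel₀ _ (pow_ne_zero _ hQ)]
    refine step_replace p j hB U V _ hU hV (hom _ Q) hUV ha (cut_swap_pairs _ _ _ _ ?_)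
    refine step_replace p j hB _ U _ (hom _ Q) hU (hom (eval Q U / det2 Q P ^ B) P)
      (fun x e1 e2 => hUV x e2 (by rw [ha x e2, e1])) (fun x hx => ?_)
      (cut_swap_pairs _ _ _ _ (quad_mono p j hB hQ hc hd))
    rw [map_mul, map_pow, eval_C, eval_lin, mul_eq_zero, pow_eq_zero_iff hB.ne'] at hx
    obtain ⟨c, rfl⟩ := exists_smul_of_det2 hQ0 (hx.resolve_left hd)
    rw [eval_smul_homog hU, eval_smul_homog (hom _ P), map_mul, map_pow, eval_C, eval_lin,
      div_mul_cancel₀ _ (pow_ne_zero _ (det2_ne_swap hQ))]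

/-- Curves `(s^r U, t^r U, s^r V, t^r V)` with `r = p^j` and `U, V` binary forms of degree `B > 0`
without common zero are cut out by two forms. -/
theorem quad_stci [IsAlgClosed k] (p : ℕ) [Fact p.Prime] [CharP k p] (j : ℕ) {B : ℕ}
    (hB : 0 < B) (U V : MvPolynomial (Fin 2) k) (hU : U.IsHomogeneous B)
    (hV : V.IsHomogeneous B) (hUV : ∀ x, eval x U = 0 → eval x V = 0 → x = 0) :
    CutByTwo (cone ![X 0 ^ p ^ j * U, X 1 ^ p ^ j * U, X 0 ^ p ^ j * V, X 1 ^ p ^ j * V]) := by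
  have hU0 : U ≠ 0 := by
    rintro rfl
    obtain ⟨x, hx, hxV⟩ := exists_root_form hV hB
    exact hx (hUV x (map_zero _) hxV)
  obtain ⟨S, hS, hS0, hcov⟩ := exists_cover hU hU0
  exact quad_cut p j hB _ U V hU hV hUV S rfl (by omega) hS0 hcov

end H33s
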