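import Pool.Agent.MP_b04567_ag.Ch.Quad

open MvPolynomial

namespace H33s

variable {k : Type*} [Field k]

theorem exists_exact_cover {W : MvPolynomial (Fin 2) k} {d : ℕ} (hW : W.IsHomogeneous d)
    (h0 : W ≠ 0) :
    ∃ S : Finset (Fin 2 → k), S.card ≤ d ∧ (∀ P ∈ S, P ≠ 0) ∧ (∀ P ∈ S, eval P W = 0) ∧
      (∀ P ∈ S, ∀ Q ∈ S, P ≠ Q → det2 P Q ≠ 0) ∧
      ∀ x, x ≠ 0 → eval x W = 0 → ∃ P ∈ S, det2 x P = 0 := by
  classical
  have key : ∀ n, ∀ S : Finset (Fin 2 → k), S.card = n → (∀ P ∈ S, P ≠ 0) →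
      (∀ x, x ≠ 0 → eval x W = 0 → ∃ P ∈ S, det2 x P = 0) →
      ∃ S' : Finset (Fin 2 → k), S'.card ≤ n ∧ (∀ P ∈ S', P ≠ 0) ∧ (∀ P ∈ S', eval P W = 0) ∧
        (∀ P ∈ S', ∀ Q ∈ S', P ≠ Q → det2 P Q ≠ 0) ∧
        ∀ x, x ≠ 0 → eval x W = 0 → ∃ P ∈ S', det2 x P = 0 := by
    intro n
    induction n using Nat.strong_induction_on with
    | _ n ih =>
    intro S hSn hS0 hcov
    have herase : ∀ P ∈ S, (∀ x, x ≠ 0 → eval x W = 0 → det2 x P = 0 →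
        ∃ Q ∈ S.erase P, det2 x Q = 0) →
        ∃ S' : Finset (Fin 2 → k), S'.card ≤ n ∧ (∀ P ∈ S', P ≠ 0) ∧ (∀ P ∈ S', eval P W = 0) ∧
          (∀ P ∈ S', ∀ Q ∈ S', P ≠ Q → det2 P Q ≠ 0) ∧
          ∀ x, x ≠ 0 → eval x W = 0 → ∃ P ∈ S', det2 x P = 0 := by
      intro P hP hPx
      have hlt := Finset.card_erase_lt_of_mem hP
      obtain ⟨S', h1, h2⟩ := ih _ (hSn ▸ hlt) (S.erase P) rfl
        (fun Q hQ => hS0 Q (Finset.mem_of_mem_erase hQ)) fun x hx hxU => by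
          obtain ⟨Q, hQ, hQ'⟩ := hcov x hx hxU
          by_cases hQP : Q = P
          · exact hPx x hx hxU (hQP ▸ hQ')
          · exact ⟨Q, Finset.mem_erase.2 ⟨hQP, hQ⟩, hQ'⟩
      exact ⟨S', by omega, h2⟩
    by_cases h1 : ∃ P ∈ S, eval P W ≠ 0
    · obtain ⟨P, hP, hPU⟩ := h1
      refine herase P hP fun x hx hxU hxP => ?_
      obtain ⟨c, rfl⟩ := exists_smul_of_det2 (hS0 P hP) hxP
      rw [eval_smul_homog hW, mul_eq_zero] at hxU
      exact absurd (by rw [eq_zero_of_pow_eq_zero (hxU.resolve_right hPU), zero_smul]) hx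
    by_cases h2 : ∃ P ∈ S, ∃ Q ∈ S, P ≠ Q ∧ det2 P Q = 0
    · obtain ⟨P, hP, Q, hQ, hPQ, hd⟩ := h2
      exact herase P hP fun x _ _ hxP => ⟨Q, Finset.mem_erase.2 ⟨hPQ.symm, hQ⟩,
        det2_trans (hS0 P hP) hxP (by rw [det2_swap, hd, neg_zero])⟩
    push Not at h1 h2
    exact ⟨S, hSn.le, hS0, h1, h2, hcov⟩
  obtain ⟨S, hS, hS0, hcov⟩ := exists_cover hW h0
  obtain ⟨S', h1, h2⟩ := key _ S rfl hS0 hcov
  exact ⟨S', h1.trans hS, h2⟩

/-- Interpolation by a binary form of degree `B` at `≤ B + 1` pairwise independent points. -/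
theorem exists_form_values {B : ℕ} (S : Finset (Fin 2 → k)) (hB : S.card ≤ B + 1)
    (hS0 : ∀ P ∈ S, P ≠ 0) (hS : ∀ P ∈ S, ∀ Q ∈ S, P ≠ Q → det2 P Q ≠ 0)
    (c : (Fin 2 → k) → k) :
    ∃ V : MvPolynomial (Fin 2) k, V.IsHomogeneous B ∧ ∀ P ∈ S, eval P V = c P := by
  classical
  have hQ : ∀ P : Fin 2 → k, ∃ Q : Fin 2 → k, P ≠ 0 → det2 P Q ≠ 0 := fun P => by
    by_cases hP : P = 0
    · exact ⟨0, fun h => absurd hP h⟩
    · obtain ⟨Q, hQ⟩ := exists_det2_ne hP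
      exact ⟨Q, fun _ => hQ⟩
  choose Q hQ using hQ
  refine ⟨∑ j ∈ S, C (c j) * ((C (det2 j (Q j))⁻¹ * lin (Q j)) ^ (B + 1 - S.card) *
    ∏ i ∈ S.erase j, (C (det2 j i)⁻¹ * lin i)), ?_, fun j hj => ?_⟩
  · refine IsHomogeneous.sum _ _ _ fun j hj => IsHomogeneous.C_mul ?_ _
    have h1 := IsHomogeneous.prod (S.erase j) (fun i => C (det2 j i)⁻¹ * lin i) (fun _ => 1)
      fun i _ => (lin_homog i).C_mul _
    rw [Finset.sum_const, smul_eq_mul, mul_one, Finset.card_erase_of_mem hj] at h1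
    have h2 := (((lin_homog (Q j)).C_mul (det2 j (Q j))⁻¹).pow (B + 1 - S.card)).mul h1
    have : 0 < S.card := Finset.card_pos.2 ⟨j, hj⟩
    rwa [show 1 * (B + 1 - S.card) + (S.card - 1) = B by omega] at h2
  · simp only [map_sum, map_mul, map_pow, map_prod, eval_C, eval_lin]
    rw [Finset.sum_eq_single j (fun b _ hbj => by
        rw [Finset.prod_eq_zero (Finset.mem_erase.2 ⟨hbj.symm, hj⟩)
          (by rw [det2_self, mul_zero]), mul_zero, mul_zero]) (fun h => absurd hj h),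
      Finset.prod_eq_one fun i hi => inv_mul_cancel₀
        (hS j hj i (Finset.mem_erase.1 hi).2 (Finset.mem_erase.1 hi).1.symm),
      inv_mul_cancel₀ (hQ j (hS0 j hj)), one_pow, mul_one, mul_one]

theorem secant_one [IsAlgClosed k] (p : ℕ) [hp : Fact p.Prime] [CharP k p] (j : ℕ) {B : ℕ}
    (hB : 0 < B) (A f g : MvPolynomial (Fin 2) k) (hA0 : A ≠ 0) (hA : A.IsHomogeneous B)
    (hf : f.IsHomogeneous (p ^ j + B)) (hg : g.IsHomogeneous (p ^ j + B))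
    (h : ∀ x, x ≠ 0 → eval x A = 0 →
      ∃ c, c ≠ 0 ∧ eval x f = c * x 0 ^ p ^ j ∧ eval x g = c * x 1 ^ p ^ j) :
    CutByTwo (cone ![X 0 ^ p ^ j * A, X 1 ^ p ^ j * A, f, g]) := by
  obtain ⟨S, hS, hS0, hSA, hSi, hcov⟩ := exists_exact_cover hA hA0
  have hc : ∀ P : Fin 2 → k, ∃ c, P ∈ S →
      c ≠ 0 ∧ eval P f = c * P 0 ^ p ^ j ∧ eval P g = c * P 1 ^ p ^ j := fun P => by
    by_cases hP : P ∈ S
    · obtain ⟨c, hc⟩ := h P (hS0 P hP) (hSA P hP)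
      exact ⟨c, fun _ => hc⟩
    · exact ⟨0, fun h => absurd h hP⟩
  choose c hc using hc
  obtain ⟨V, hV, hVe⟩ := exists_form_values (B := B) S (by omega) hS0 hSi c
  have hval : ∀ x, eval x A = 0 → eval x f = x 0 ^ p ^ j * eval x V ∧
      eval x g = x 1 ^ p ^ j * eval x V ∧ (eval x V = 0 → x = 0) := by
    intro x hxA
    by_cases hx : x = 0
    · rw [hx, eval_zero_homog hf (by omega), eval_zero_homog hg (by omega), eval_zero_homog hV hB]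
      simp
    · obtain ⟨P, hP, hd⟩ := hcov x hx hxA
      obtain ⟨l, rfl⟩ := exists_smul_of_det2 (hS0 P hP) hd
      obtain ⟨h0, h1, h2⟩ := hc P hP
      rw [eval_smul_homog hf, eval_smul_homog hg, eval_smul_homog hV, hVe P hP, h1, h2]
      simp only [Pi.smul_apply, smul_eq_mul]
      refine ⟨by ring, by ring, fun h => ?_⟩
      rw [eq_zero_of_pow_eq_zero ((mul_eq_zero.1 h).resolve_right h0), zero_smul]
  have hAV : ∀ x, eval x A = 0 → eval x V = 0 → x = 0 := fun x hx => (hval x hx).2.2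
  obtain ⟨a, b, hab, ha, hb⟩ := exists_two_nonroots hA hA0
  have hdet : (1 : k) * (-b ^ p ^ j) - (-a ^ p ^ j) * 1 ≠ 0 := by
    intro h0
    exact hab (pow_q_inj p j (by linear_combination h0))
  have hom : ∀ (c : k) (Y Z : MvPolynomial (Fin 2) k), Y.IsHomogeneous (p ^ j + B) →
      Z.IsHomogeneous (p ^ j + B) → (C 1 * Y + C (-c ^ p ^ j) * Z).IsHomogeneous (p ^ j + B) :=
    fun c Y Z hY hZ => (hY.C_mul _).add (hZ.C_mul _)
  have h0V := (isHomogeneous_X_pow (R := k) (0 : Fin 2) (p ^ j)).mul hV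
  have h1V := (isHomogeneous_X_pow (R := k) (1 : Fin 2) (p ^ j)).mul hV
  have ev : ∀ (c : k) (x : Fin 2 → k),
      eval x (C 1 * (X 0 ^ p ^ j * V) + C (-c ^ p ^ j) * (X 1 ^ p ^ j * V)) =
        (x 0 ^ p ^ j - c ^ p ^ j * x 1 ^ p ^ j) * eval x V := by
    intro c x
    simp only [map_add, map_mul, map_pow, eval_C, eval_X]
    ring
  have ev' : ∀ (c : k) (x : Fin 2 → k), eval x A = 0 →
      eval x (C 1 * f + C (-c ^ p ^ j) * g) =
        (x 0 ^ p ^ j - c ^ p ^ j * x 1 ^ p ^ j) * eval x V := by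
    intro c x hx
    simp only [map_add, map_mul, eval_C, (hval x hx).1, (hval x hx).2.1]
    ring
  have h1 := cut_lin2' _ _ _ _ 1 (-a ^ p ^ j) 1 (-b ^ p ^ j) hdet (quad_stci p j hB A V hA hV hAV)
  have h2 := move_one' p j hB A V _ _ _ a hA (hom a _ _ h0V h1V) (hom b f g hf hg)
    (hom b _ _ h0V h1V) ha hAV (fun x _ => ev a x) (fun x hx => by rw [ev, ev' b x hx]) h1
  have h3 := move_one' p j hB A V _ _ _ b hA (hom b f g hf hg) (hom a f g hf hg)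
    (hom a _ _ h0V h1V) hb hAV (ev' b) (fun x hx => by rw [ev, ev' a x hx]) (cut_swap23 _ _ _ _ h2)
  exact cut_lin2 _ _ _ _ 1 (-a ^ p ^ j) 1 (-b ^ p ^ j) hdet (cut_swap23 _ _ _ _ h3)

/-- THEOREM A (form of helper62, with a Frobenius exponent `r = p^j`; `j = 0` is the main case). -/
theorem secant_stci [IsAlgClosed k] (p : ℕ) [Fact p.Prime] [CharP k p] (j : ℕ) {B : ℕ}
    (hB : 0 < B) (A f g : MvPolynomial (Fin 2) k) (hA0 : A ≠ 0) (hA : A.IsHomogeneous B)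
    (hf : f.IsHomogeneous (p ^ j + B)) (hg : g.IsHomogeneous (p ^ j + B))
    (α β γ δ : k) (hdet : α * δ - β * γ ≠ 0)
    (h : ∀ x, x ≠ 0 → eval x A = 0 → ∃ c, c ≠ 0 ∧
      eval x f = c * (α * x 0 ^ p ^ j + β * x 1 ^ p ^ j) ∧
      eval x g = c * (γ * x 0 ^ p ^ j + δ * x 1 ^ p ^ j)) :
    CutByTwo (cone ![X 0 ^ p ^ j * A, X 1 ^ p ^ j * A, f, g]) := by
  refine cut_lin2 _ _ _ _ δ (-β) (-γ) α (fun h0 => hdet (by linear_combination h0)) ?_
  refine secant_one p j hB A _ _ hA0 hA ((hf.C_mul _).add (hg.C_mul _))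
    ((hf.C_mul _).add (hg.C_mul _)) fun x hx hxA => ?_
  obtain ⟨c, hc, h1, h2⟩ := h x hx hxA
  refine ⟨c * (α * δ - β * γ), mul_ne_zero hc hdet, ?_, ?_⟩
  · simp only [map_add, map_mul, eval_C, h1, h2]; ring
  · simp only [map_add, map_mul, eval_C, h1, h2]; ring

end H33s
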